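import Mathlib

/-!
Functions on a finite abelian group all of whose alternating sums over boxes vanish: a lower bound
for the norm, and the splitting off of the invariant parts one direction at a time.
-/

namespace Pool.Agent.Q63.FQ

open Finset

variable {G : Type*} [CommGroup G]

/-- the difference operator -/
def dif (h : G) (f : G → ℤ) : G → ℤ := fun g => f g - f (h * g)

/-- the alternating sums of `f` over the boxes at `g` vanish -/
def BoxAt : List (Subgroup G) → (G → ℤ) → G → Prop
  | [], f, g => f g = 0
  | K :: L, f, g => ∀ h ∈ K, BoxAt L (dif h f) g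

/-- the span of a list of subgroups -/
def sp : List (Subgroup G) → Subgroup G
  | [] => ⊥
  | K :: L => K ⊔ sp L

/-- the sum is direct -/
def Dir : List (Subgroup G) → Prop
  | [] => True
  | K :: L => Disjoint K (sp L) ∧ Dir L

lemma le_sp_cons (K : Subgroup G) (L : List (Subgroup G)) : sp L ≤ sp (K :: L) := le_sup_right

lemma le_sp_head (K : Subgroup G) (L : List (Subgroup G)) : K ≤ sp (K :: L) := le_sup_left

lemma boxAt_congr : ∀ (L : List (Subgroup G)) (f f' : G → ℤ) (g : G),
    (∀ k ∈ sp L, f (k * g) = f' (k * g)) → BoxAt L f g → BoxAt L f' g := by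
  intro L
  induction L with
  | nil =>
    intro f f' g h hb
    have h1 := h 1 (one_mem _)
    rw [one_mul] at h1
    change f g = 0 at hb
    change f' g = 0
    rw [← h1]; exact hb
  | cons K L ih =>
    intro f f' g h hb a ha
    refine ih (dif a f) (dif a f') g ?_ (hb a ha)
    intro k hk
    unfold dif
    rw [h k (le_sp_cons K L hk), ← mul_assoc, h (a * k)
      (mul_mem (le_sp_head K L ha) (le_sp_cons K L hk))]

lemma boxAt_sub : ∀ (L : List (Subgroup G)) (f f' : G → ℤ) (g : G),
    BoxAt L f g → BoxAt L f' g → BoxAt L (f - f') g := by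
  intro L
  induction L with
  | nil =>
    intro f f' g h h'
    change f g = 0 at h
    change f' g = 0 at h'
    change f g - f' g = 0
    rw [h, h', sub_zero]
  | cons K L ih =>
    intro f f' g h h' a ha
    have h1 : dif a (f - f') = dif a f - dif a f' := by
      funext x
      simp only [dif, Pi.sub_apply]
      ring
    rw [h1]
    exact ih _ _ g (h a ha) (h' a ha)

section fin

variable [Fintype G]

open scoped Classical in
/-- the elements of a subgroup -/
noncomputable def el (K : Subgroup G) : Finset G := univ.filter (fun x => x ∈ K)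

omit [Fintype G] in
lemma mem_el [Fintype G] {K : Subgroup G} {x : G} : x ∈ el K ↔ x ∈ K := by
  classical
  unfold el
  simp

lemma el_pos (K : Subgroup G) : 0 < (el K).card :=
  Finset.card_pos.mpr ⟨1, mem_el.mpr (one_mem K)⟩

/-- the norm -/
def nm (f : G → ℤ) : ℕ := ∑ g, (f g).natAbs

open scoped Classical in
/-- A nonzero function with vanishing alternating sums has large norm on each coset. -/
lemma norm_bound : ∀ (L : List (Subgroup G)), Dir L → ∀ (f : G → ℤ) (g : G),
    (∀ x, BoxAt L f x) → (∃ y ∈ sp L, f (y * g) ≠ 0) →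
    ∃ K ∈ L, (el K).card ≤ ∑ y ∈ el (sp L), (f (y * g)).natAbs := by
  intro L
  induction L with
  | nil =>
    intro _ f g hb ⟨y, _, hy⟩
    exact absurd (hb (y * g)) hy
  | cons K L ih =>
    intro hd f g hb ⟨y, hy, hfy⟩
    by_cases hcase : ∀ h ∈ K, ∀ z ∈ sp (K :: L), f (h * (z * g)) = f (z * g)
    · -- invariant case
      refine ⟨K, List.mem_cons_self, ?_⟩
      have hinj : Set.InjOn (fun h : G => h * y) (el K : Set G) := by
        intro a _ b _ h
        exact mul_right_cancel h
      have hsub : (el K).image (fun h => h * y) ⊆ el (sp (K :: L)) := by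
        intro z hz
        obtain ⟨h, hh, rfl⟩ := mem_image.mp hz
        exact mem_el.mpr (mul_mem (le_sp_head K L (mem_el.mp hh)) hy)
      calc (el K).card = ∑ h ∈ el K, 1 := by simp
        _ ≤ ∑ h ∈ el K, (f (h * y * g)).natAbs := by
            apply sum_le_sum
            intro h hh
            rw [mul_assoc, hcase h (mem_el.mp hh) y hy]
            exact Nat.one_le_iff_ne_zero.mpr (Int.natAbs_ne_zero.mpr hfy)
        _ = ∑ z ∈ (el K).image (fun h => h * y), (f (z * g)).natAbs := by
            rw [sum_image hinj]
        _ ≤ _ := sum_le_sum_of_subset hsub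
    · push Not at hcase
      obtain ⟨h, hh, z, hz, hne⟩ := hcase
      have hne' : dif h f (z * g) ≠ 0 := by
        unfold dif
        intro h0
        exact hne (by linarith)
      obtain ⟨K', hK', hle⟩ := ih hd.2 (dif h f) (z * g) (fun x => hb x h hh)
        ⟨1, one_mem _, by rw [one_mul]; exact hne'⟩
      refine ⟨K', List.mem_cons_of_mem _ hK', hle.trans ?_⟩
      have hh1 : h ≠ 1 := by
        rintro rfl
        rw [one_mul] at hne
        exact hne rfl
      have hinj1 : Set.InjOn (fun y : G => y * z) (el (sp L) : Set G) := by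
        intro a _ b _ h
        exact mul_right_cancel h
      have hinj2 : Set.InjOn (fun y : G => h * y * z) (el (sp L) : Set G) := by
        intro a _ b _ h
        exact mul_left_cancel (mul_right_cancel h)
      have hdisj : Disjoint ((el (sp L)).image fun y => y * z)
          ((el (sp L)).image fun y => h * y * z) := by
        rw [Finset.disjoint_left]
        intro x hx hx'
        obtain ⟨a, ha, rfl⟩ := mem_image.mp hx
        obtain ⟨b, hb', hab⟩ := mem_image.mp hx'
        have h1 : h * b = a := mul_right_cancel hab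
        have h2 : h = a * b⁻¹ := by rw [← h1]; simp
        have h3 : h ∈ sp L := by
          rw [h2]
          exact mul_mem (mem_el.mp ha) (inv_mem (mem_el.mp hb'))
        exact hh1 (Subgroup.disjoint_def.mp hd.1 hh h3)
      have hsub : ((el (sp L)).image fun y => y * z) ∪ ((el (sp L)).image fun y => h * y * z) ⊆
          el (sp (K :: L)) := by
        intro x hx
        rcases mem_union.mp hx with hx | hx
        · obtain ⟨a, ha, rfl⟩ := mem_image.mp hx
          exact mem_el.mpr (mul_mem (le_sp_cons K L (mem_el.mp ha)) hz)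
        · obtain ⟨a, ha, rfl⟩ := mem_image.mp hx
          exact mem_el.mpr (mul_mem (mul_mem (le_sp_head K L hh) (le_sp_cons K L (mem_el.mp ha))) hz)
      calc ∑ y ∈ el (sp L), (dif h f (y * (z * g))).natAbs
          ≤ ∑ y ∈ el (sp L), ((f (y * z * g)).natAbs + (f (h * y * z * g)).natAbs) := by
            apply sum_le_sum
            intro y _
            unfold dif
            rw [show h * (y * (z * g)) = h * y * z * g by simp only [mul_assoc],
              show y * (z * g) = y * z * g by simp only [mul_assoc]]
            exact Int.natAbs_sub_le _ _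
        _ = ∑ x ∈ ((el (sp L)).image fun y => y * z) ∪ ((el (sp L)).image fun y => h * y * z),
              (f (x * g)).natAbs := by
            rw [sum_union hdisj, sum_image hinj1, sum_image hinj2, sum_add_distrib]
        _ ≤ _ := sum_le_sum_of_subset hsub

/-- two elements of `K` with the same slices at `g` -/
def Same (L : List (Subgroup G)) (f : G → ℤ) (g a b : G) : Prop :=
  ∀ y ∈ sp L, f (a * (y * g)) = f (b * (y * g))

open scoped Classical in
/-- A slice is attained by more than half of the elements of `K`. -/
lemma majority (K : Subgroup G) (L : List (Subgroup G)) (hd : Dir (K :: L)) (f : G → ℤ)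
    (hb : ∀ x, BoxAt (K :: L) f x) (hbound : ∀ K' ∈ L, 2 * nm f < (el K).card * (el K').card)
    (g : G) : ∃ a ∈ K, (el K).card < 2 * ((el K).filter (fun b => Same L f g b a)).card := by
  by_contra hcon
  push Not at hcon
  -- a derangement of the slices
  have hall : ∃ σ : {x // x ∈ el K} → G, Function.Injective σ ∧
      ∀ a, σ a ∈ (el K).filter (fun b => ¬ Same L f g b a.1) := by
    rw [← Finset.all_card_le_biUnion_card_iff_exists_injective]
    intro S
    rcases S.eq_empty_or_nonempty with rfl | ⟨a0, ha0⟩
    · simp
    have hcardS : S.card ≤ (el K).card := by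
      calc S.card ≤ Fintype.card {x // x ∈ el K} := Finset.card_le_univ S
        _ = (el K).card := Fintype.card_coe _
    by_cases hS : ∀ a ∈ S, Same L f g a.1 a0.1
    · -- inside a class
      have h1 : S.card ≤ ((el K).filter (fun b => Same L f g b a0.1)).card := by
        rw [← Finset.card_image_of_injective S Subtype.val_injective]
        apply Finset.card_le_card
        intro x hx
        obtain ⟨a, ha, rfl⟩ := mem_image.mp hx
        exact mem_filter.mpr ⟨a.2, hS a ha⟩
      have h2 := hcon a0.1 (mem_el.mp a0.2)
      have h3 := Finset.card_filter_add_card_filter_not (s := el K) (fun b => Same L f g b a0.1)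
      have h4 : ((el K).filter (fun b => ¬ Same L f g b a0.1)).card ≤
          (S.biUnion fun a => (el K).filter (fun b => ¬ Same L f g b a.1)).card := by
        apply Finset.card_le_card
        exact Finset.subset_biUnion_of_mem
          (fun a : {x // x ∈ el K} => (el K).filter (fun b => ¬ Same L f g b a.1)) ha0
      omega
    · push Not at hS
      obtain ⟨a1, ha1, hne⟩ := hS
      have h4 : el K ⊆ S.biUnion fun a => (el K).filter (fun b => ¬ Same L f g b a.1) := by
        intro x hx
        rw [mem_biUnion]
        by_cases h5 : Same L f g x a0.1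
        · refine ⟨a1, ha1, mem_filter.mpr ⟨hx, ?_⟩⟩
          intro h6
          apply hne
          intro y hy
          rw [← h6 y hy, h5 y hy]
        · exact ⟨a0, ha0, mem_filter.mpr ⟨hx, h5⟩⟩
      exact hcardS.trans (Finset.card_le_card h4)
  obtain ⟨σ, hσ, hσ'⟩ := hall
  -- each pair of different slices has large norm
  have hkey : ∀ a : {x // x ∈ el K}, ∃ K' ∈ L, (el K').card ≤
      ∑ y ∈ el (sp L), ((f (a.1 * (y * g))).natAbs + (f (σ a * (y * g))).natAbs) := by
    intro a
    have h1 := (mem_filter.mp (hσ' a)).1
    have h2 := (mem_filter.mp (hσ' a)).2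
    unfold Same at h2
    push Not at h2
    obtain ⟨y, hy, hne⟩ := h2
    obtain ⟨K', hK', hle⟩ := norm_bound L hd.2 (dif (σ a) f - dif a.1 f) g
      (fun x => boxAt_sub L _ _ x (hb x _ (mem_el.mp h1)) (hb x _ (mem_el.mp a.2)))
      ⟨y, hy, by
        simp only [Pi.sub_apply, dif]
        intro h0
        apply hne
        linarith⟩
    refine ⟨K', hK', hle.trans (sum_le_sum ?_)⟩
    intro z _
    simp only [Pi.sub_apply, dif]
    have : f (z * g) - f (σ a * (z * g)) - (f (z * g) - f (a.1 * (z * g))) =
        f (a.1 * (z * g)) - f (σ a * (z * g)) := by ring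
    rw [this]
    exact Int.natAbs_sub_le _ _
  choose κ hκ hκle using hkey
  have hinj : ∀ τ : {x // x ∈ el K} → G, Function.Injective τ → (∀ a, τ a ∈ el K) →
      ∑ a, ∑ y ∈ el (sp L), (f (τ a * (y * g))).natAbs ≤ nm f := by
    intro τ hτ hτK
    unfold nm
    rw [← Finset.sum_product']
    have hI : Set.InjOn (fun x : {x // x ∈ el K} × G => τ x.1 * (x.2 * g))
        ((univ : Finset {x // x ∈ el K}) ×ˢ el (sp L) : Finset _) := by
      rintro ⟨a, y⟩ hx ⟨b, z⟩ hx' h
      simp only at h
      rw [Finset.coe_product, Set.mem_prod] at hx hx'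
      have hy : y ∈ sp L := mem_el.mp hx.2
      have hz : z ∈ sp L := mem_el.mp hx'.2
      have h1 : τ a * y = τ b * z := by
        have : τ a * y * g = τ b * z * g := by simpa only [mul_assoc] using h
        exact mul_right_cancel this
      have h2 : τ a * (τ b)⁻¹ = z * y⁻¹ := by
        have h3 : τ a = τ b * z * y⁻¹ := by rw [← h1]; simp
        rw [h3, mul_assoc (τ b) z, mul_comm (τ b), mul_assoc]; simp
      have h3 : τ a * (τ b)⁻¹ ∈ sp L := by
        rw [h2]; exact mul_mem hz (inv_mem hy)
      have h4 : τ a * (τ b)⁻¹ ∈ K := mul_mem (mem_el.mp (hτK a)) (inv_mem (mem_el.mp (hτK b)))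
      have h5 := Subgroup.disjoint_def.mp hd.1 h4 h3
      have h6 : τ a = τ b := by rwa [mul_inv_eq_one] at h5
      have h7 : a = b := hτ h6
      rw [h6] at h1
      have h8 : y = z := mul_left_cancel h1
      rw [h7, h8]
    rw [← sum_image (f := fun x => (f x).natAbs) hI]
    exact sum_le_sum_of_subset (subset_univ _)
  have h1 := hinj (fun a => a.1) Subtype.val_injective (fun a => a.2)
  have h2 := hinj σ hσ (fun a => (mem_filter.mp (hσ' a)).1)
  have h3 : ∑ a : {x // x ∈ el K}, (el (κ a)).card ≤ 2 * nm f := by
    calc ∑ a, (el (κ a)).card ≤ ∑ a : {x // x ∈ el K}, ∑ y ∈ el (sp L),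
          ((f (a.1 * (y * g))).natAbs + (f (σ a * (y * g))).natAbs) := sum_le_sum fun a _ => hκle a
      _ = ∑ a : {x // x ∈ el K}, ∑ y ∈ el (sp L), (f (a.1 * (y * g))).natAbs +
          ∑ a : {x // x ∈ el K}, ∑ y ∈ el (sp L), (f (σ a * (y * g))).natAbs := by
          simp only [sum_add_distrib]
      _ ≤ _ := by omega
  have h4 : ∑ a : {x // x ∈ el K}, (2 * nm f + 1) ≤
      ∑ a : {x // x ∈ el K}, (el K).card * (el (κ a)).card :=
    sum_le_sum fun a _ => hbound _ (hκ a)
  rw [sum_const, card_univ, Fintype.card_coe, smul_eq_mul, ← mul_sum] at h4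
  have h5 := Nat.le_of_mul_le_mul_left h4 (el_pos K)
  omega

open scoped Classical in
/-- **Splitting off the invariant part in one direction.** -/
lemma peel_dir (K : Subgroup G) (L : List (Subgroup G)) (f : G → ℤ)
    (hb : ∀ x, BoxAt (K :: L) f x)
    (hmaj : ∀ g, ∃ a ∈ K, (el K).card < 2 * ((el K).filter (fun b => Same L f g b a)).card)
    (J : G) (hJ : ∀ x, f (J * x) = - f x) (w : ℕ) (hw : w ≤ 1 ∨ (w ≤ 2 ∧ Even (el K).card)) :
    ∃ β : G → ℤ, (∀ h ∈ K, ∀ x, β (h * x) = β x) ∧ (∀ x, β (J * x) = - β x) ∧
      (∀ x, BoxAt L (f - β) x) ∧ (el K).card * nm (f - β) + w * nm β ≤ (el K).card * nm f := by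
  choose α hα hαm using hmaj
  -- uniqueness of the majority slice
  have huniq : ∀ g a, a ∈ K →
      (el K).card < 2 * ((el K).filter (fun b => Same L f g b a)).card → Same L f g a (α g) := by
    intro g a ha h
    have h1 := hαm g
    by_contra hcon
    have hdisj : Disjoint ((el K).filter (fun b => Same L f g b a))
        ((el K).filter (fun b => Same L f g b (α g))) := by
      rw [Finset.disjoint_left]
      intro b hb1 hb2
      apply hcon
      intro y hy
      rw [← (mem_filter.mp hb1).2 y hy, (mem_filter.mp hb2).2 y hy]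
    have h2 := Finset.card_union_of_disjoint hdisj
    have h3 : (((el K).filter (fun b => Same L f g b a)) ∪
        ((el K).filter (fun b => Same L f g b (α g)))).card ≤ (el K).card :=
      Finset.card_le_card (union_subset (filter_subset _ _) (filter_subset _ _))
    omega
  let β : G → ℤ := fun x => f (α x * x)
  -- slices
  have hslice : ∀ k ∈ sp L, ∀ x, β (k * x) = f (α x * (k * x)) := by
    intro k hk x
    have h1 : ∀ b c, Same L f (k * x) b c ↔ Same L f x b c := by
      intro b c
      constructor
      · intro h y hy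
        have := h (y * k⁻¹) (mul_mem hy (inv_mem hk))
        simpa [mul_assoc] using this
      · intro h y hy
        have := h (y * k) (mul_mem hy hk)
        simpa [mul_assoc] using this
    have h2 := huniq (k * x) (α x) (hα x) (by
      simp only [h1]
      exact hαm x)
    have h3 := h2 1 (one_mem _)
    rw [one_mul] at h3
    exact h3.symm
  have hinv : ∀ h ∈ K, ∀ x, β (h * x) = β x := by
    intro h hh x
    -- the majority slice at h * x
    have h1 : Same L f x (α (h * x) * h) (α x) := by
      apply huniq x _ (mul_mem (hα _) hh)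
      refine lt_of_lt_of_le (hαm (h * x)) ?_
      apply Nat.mul_le_mul_left
      rw [← Finset.card_image_of_injective _ (mul_left_injective h)]
      apply Finset.card_le_card
      intro b hb'
      obtain ⟨c, hc, rfl⟩ := mem_image.mp hb'
      refine mem_filter.mpr ⟨mem_el.mpr (mul_mem (mem_el.mp (mem_filter.mp hc).1) hh), ?_⟩
      intro y hy
      have := (mem_filter.mp hc).2 y hy
      rw [show y * (h * x) = h * (y * x) by rw [mul_left_comm]] at this
      simpa only [mul_assoc] using this
    have h2 := h1 1 (one_mem _)
    rw [one_mul] at h2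
    change f (α (h * x) * (h * x)) = f (α x * x)
    rw [← h2, mul_assoc]
  have hodd : ∀ x, β (J * x) = - β x := by
    intro x
    have h1 : ∀ b c, Same L f (J * x) b c ↔ Same L f x b c := by
      intro b c
      unfold Same
      have : ∀ b y, f (b * (y * (J * x))) = - f (b * (y * x)) := by
        intro b y
        rw [← hJ, show b * (y * (J * x)) = J * (b * (y * x)) by
          rw [mul_left_comm y, mul_left_comm b]]
      simp only [this, neg_inj]
    have h2 := huniq (J * x) (α x) (hα x) (by
      simp only [h1]
      exact hαm x)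
    have h3 := h2 1 (one_mem _)
    rw [one_mul] at h3
    change f (α (J * x) * (J * x)) = - f (α x * x)
    rw [← h3, ← hJ, mul_left_comm]
  refine ⟨β, hinv, hodd, ?_, ?_⟩
  · intro x
    refine boxAt_congr L (dif (α x) f) (f - β) x ?_ (hb x _ (hα x))
    intro k hk
    simp only [dif, Pi.sub_apply]
    rw [hslice k hk]
  · -- the norm inequality on each line
    have hline : ∀ x, ∑ a ∈ el K, ((f - β) (a * x)).natAbs + w * (β x).natAbs ≤
        ∑ a ∈ el K, (f (a * x)).natAbs := by
      intro x
      set M := (el K).filter (fun b => Same L f x b (α x)) with hM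
      have hM1 : ∀ a ∈ M, f (a * x) = β x := by
        intro a ha
        have := (mem_filter.mp ha).2 1 (one_mem _)
        rwa [one_mul] at this
      have hMc := Finset.card_filter_add_card_filter_not (s := el K)
        (fun b => Same L f x b (α x))
      have hMm := hαm x
      rw [← hM] at hMc hMm
      have e1 : ∑ a ∈ el K, ((f - β) (a * x)).natAbs =
          ∑ a ∈ (el K).filter (fun b => ¬ Same L f x b (α x)), (f (a * x) - β x).natAbs := by
        rw [← Finset.sum_filter_add_sum_filter_not (el K) (fun b => Same L f x b (α x))]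
        rw [← hM, sum_eq_zero (s := M), zero_add]
        · refine sum_congr rfl fun a ha => ?_
          simp only [Pi.sub_apply]
          rw [hinv a (mem_el.mp (mem_filter.mp ha).1)]
        · intro a ha
          simp only [Pi.sub_apply]
          rw [hinv a (mem_el.mp (mem_filter.mp ha).1), hM1 a ha, sub_self]
          rfl
      have e2 : ∑ a ∈ el K, (f (a * x)).natAbs = M.card * (β x).natAbs +
          ∑ a ∈ (el K).filter (fun b => ¬ Same L f x b (α x)), (f (a * x)).natAbs := by
        rw [← Finset.sum_filter_add_sum_filter_not (el K) (fun b => Same L f x b (α x))]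
        rw [← hM]
        congr 1
        rw [sum_congr rfl fun a ha => by rw [hM1 a ha], sum_const, smul_eq_mul]
      have e3 : ∑ a ∈ (el K).filter (fun b => ¬ Same L f x b (α x)), (f (a * x) - β x).natAbs ≤
          ∑ a ∈ (el K).filter (fun b => ¬ Same L f x b (α x)), (f (a * x)).natAbs +
          ((el K).filter (fun b => ¬ Same L f x b (α x))).card * (β x).natAbs := by
        calc _ ≤ ∑ a ∈ (el K).filter (fun b => ¬ Same L f x b (α x)),
              ((f (a * x)).natAbs + (β x).natAbs) := sum_le_sum fun a _ => Int.natAbs_sub_le _ _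
          _ = _ := by rw [sum_add_distrib, sum_const, smul_eq_mul]
      rw [e1, e2]
      set N := ((el K).filter (fun b => ¬ Same L f x b (α x))).card with hN
      have hwN : w + N ≤ M.card := by
        rcases hw with h | ⟨h, k, hk⟩
        · omega
        · omega
      have := Nat.mul_le_mul_right (β x).natAbs hwN
      rw [add_mul] at this
      omega
    have hsum : ∀ φ : G → ℕ, ∑ x, ∑ a ∈ el K, φ (a * x) = (el K).card * ∑ x, φ x := by
      intro φ
      have h1 : ∀ a ∈ el K, ∑ x, φ (a * x) = ∑ x, φ x := fun a _ =>
        Equiv.sum_comp (Equiv.mulLeft a) φ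
      rw [sum_comm, sum_congr rfl h1, sum_const, smul_eq_mul]
    unfold nm
    rw [← hsum (fun x => ((f - β) x).natAbs), ← hsum (fun x => (f x).natAbs), mul_sum,
      ← sum_add_distrib]
    exact sum_le_sum fun x _ => hline x

/-- **The greedy decomposition.** -/
theorem greedy (K : ℕ → Subgroup G) (w : ℕ → ℕ) (J : G) (R : (G → ℤ) → ℕ → Prop) (hR0 : R 0 0)
    (hadd : ∀ f f' c c', R f c → R f' c' → R (f + f') (c + c')) :
    ∀ ps : List ℕ, Dir (ps.map K) →
      (∀ p ∈ ps, w p ≤ 1 ∨ (w p ≤ 2 ∧ Even (el (K p)).card)) →
      (∀ p ∈ ps, ∀ β : G → ℤ, (∀ h ∈ K p, ∀ x, β (h * x) = β x) → (∀ x, β (J * x) = - β x) →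
        ∀ c, w p * nm β ≤ (el (K p)).card * c → R β c) →
      ∀ f : G → ℤ, (∀ x, f (J * x) = - f x) → (∀ x, BoxAt (ps.map K) f x) →
        (ps.Pairwise fun p q => 2 * nm f < (el (K p)).card * (el (K q)).card) → R f (nm f) := by
  intro ps
  induction ps with
  | nil =>
    intro _ _ _ f _ hb _
    have hf : f = 0 := by
      funext x
      exact hb x
    subst hf
    have : nm (0 : G → ℤ) = 0 := by simp [nm]
    rw [this]
    exact hR0
  | cons p ps ih =>
    intro hd hw hinv f hJ hb hpw
    rw [List.pairwise_cons] at hpw
    have hmaj : ∀ g, ∃ a ∈ K p, (el (K p)).card <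
        2 * (by classical exact ((el (K p)).filter (fun b => Same (ps.map K) f g b a)).card) := by
      classical
      intro g
      refine majority (K p) (ps.map K) hd f hb ?_ g
      intro K' hK'
      obtain ⟨q, hq, rfl⟩ := List.mem_map.mp hK'
      exact hpw.1 q hq
    obtain ⟨β, hβ1, hβ2, hβ3, hβ4⟩ := peel_dir (K p) (ps.map K) f hb hmaj J hJ (w p)
      (hw p List.mem_cons_self)
    have hpos := el_pos (K p)
    have hle : nm (f - β) ≤ nm f := by
      have : (el (K p)).card * nm (f - β) ≤ (el (K p)).card * nm f := by omega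
      exact Nat.le_of_mul_le_mul_left this hpos
    have hβc : w p * nm β ≤ (el (K p)).card * (nm f - nm (f - β)) := by
      rw [Nat.mul_sub]
      omega
    have h1 := hinv p List.mem_cons_self β hβ1 hβ2 _ hβc
    have h2 : R (f - β) (nm (f - β)) := by
      apply ih hd.2 (fun q hq => hw q (List.mem_cons_of_mem _ hq))
        (fun q hq => hinv q (List.mem_cons_of_mem _ hq)) (f - β) _ hβ3 _
      · intro x
        simp only [Pi.sub_apply]
        rw [hJ, hβ2]; ring
      · refine hpw.2.imp ?_
        intro a b hab
        omega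
    have h3 := hadd _ _ _ _ h1 h2
    have h4 : β + (f - β) = f := by abel
    have h5 : nm f - nm (f - β) + nm (f - β) = nm f := Nat.sub_add_cancel hle
    rwa [h4, h5] at h3

end fin

end Pool.Agent.Q63.FQ
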