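import Pool.Agent.Q63.FQ.Lvl

/-!
Distribution relations between neighbouring levels.
-/

namespace Pool.Agent.Q63.FQ

set_option linter.unusedSectionVars false

open Finset Pool.Agent.H916R2

section fibers

variable {d p e : ℕ} [NeZero d] [NeZero e]

lemma unitsMap_eq_one (hp : p.Prime) (hd : p * e = d) (u : (ZMod d)ˣ) :
    ZMod.unitsMap (Dvd.intro_left p hd : e ∣ d) u = 1 ↔ u ∈ KK d p := by
  rw [mem_KK]
  have h1 : ((ZMod.unitsMap (Dvd.intro_left p hd : e ∣ d) u : (ZMod e)ˣ) : ZMod e) =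
      (((u : ZMod d).val : ℕ) : ZMod e) := by
    rw [ZMod.unitsMap_val, ZMod.natCast_val]
  rw [Units.ext_iff, h1, Units.val_one, ← Nat.cast_one, ZMod.natCast_eq_natCast_iff]
  have h2 : (u : ZMod d) * (p : ZMod d) = (p : ZMod d) ↔ p * (u : ZMod d).val ≡ p * 1 [MOD d] := by
    rw [← ZMod.natCast_eq_natCast_iff]
    push_cast
    rw [ZMod.natCast_zmod_val, mul_one, mul_comm]
  rw [h2]
  constructor
  · intro h
    have := h.mul_left' p
    rwa [hd] at this
  · intro h
    apply Nat.ModEq.mul_left_cancel' hp.ne_zero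
    rw [hd]; exact h

lemma sum_fib (hp : p.Prime) (hd : p * e = d) (F : (ZMod e)ˣ → ℕ) :
    ∑ u : (ZMod d)ˣ, F (ZMod.unitsMap (Dvd.intro_left p hd : e ∣ d) u) =
      (el (KK d p)).card * ∑ v : (ZMod e)ˣ, F v := by
  classical
  set ρ := ZMod.unitsMap (Dvd.intro_left p hd : e ∣ d) with hρ
  rw [← Finset.sum_fiberwise univ (fun t : (ZMod d)ˣ => ρ t), mul_sum]
  refine sum_congr rfl fun s _ => ?_
  have h1 : ∀ t ∈ univ.filter (fun t : (ZMod d)ˣ => ρ t = s), F (ρ t) = F s := by
    intro t ht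
    rw [(mem_filter.mp ht).2]
  rw [sum_congr rfl h1, sum_const, smul_eq_mul]
  congr 1
  obtain ⟨t0, ht0⟩ := ZMod.unitsMap_surjective (Dvd.intro_left p hd : e ∣ d) s
  rw [← hρ] at ht0
  apply Finset.card_bij (fun t _ => t0⁻¹ * t)
  · intro t ht
    rw [mem_filter] at ht
    rw [mem_el, ← unitsMap_eq_one hp hd, ← hρ, map_mul, map_inv, ht0, ht.2]; simp
  · intro a _ b _ h
    exact mul_left_cancel h
  · intro b hb
    rw [mem_el, ← unitsMap_eq_one hp hd, ← hρ] at hb
    refine ⟨t0 * b, ?_, by simp⟩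
    rw [mem_filter]
    refine ⟨mem_univ _, ?_⟩
    rw [map_mul, hb, ht0, mul_one]

lemma card_KK_mul (hp : p.Prime) (hd : p * e = d) :
    (el (KK d p)).card * Nat.totient e = Nat.totient d := by
  have h := sum_fib hp hd (fun _ => 1)
  simp only [sum_const, card_univ, ZMod.card_units_eq_totient, smul_eq_mul, mul_one] at h
  exact h.symm

lemma card_KK_of_dvd (hp : p.Prime) (hd : p * e = d) (hpe : p ∣ e) : (el (KK d p)).card = p := by
  have h := card_KK_mul hp hd
  have h4 : Nat.totient d = p * Nat.totient e := by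
    rw [← hd]; exact Nat.totient_mul_of_prime_of_dvd hp hpe
  rw [h4] at h
  exact Nat.eq_of_mul_eq_mul_right (Nat.totient_pos.mpr (NeZero.pos e)) h

lemma card_KK_of_not_dvd (hp : p.Prime) (hd : p * e = d) (hpe : ¬ p ∣ e) :
    (el (KK d p)).card = p - 1 := by
  have h := card_KK_mul hp hd
  have h4 : Nat.totient d = (p - 1) * Nat.totient e := by
    rw [← hd]; exact Nat.totient_mul_of_prime_of_not_dvd hp hpe
  rw [h4] at h
  exact Nat.eq_of_mul_eq_mul_right (Nat.totient_pos.mpr (NeZero.pos e)) h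

lemma card_KK_ge (hp : p.Prime) (hd : p * e = d) : p - 1 ≤ (el (KK d p)).card := by
  by_cases h : p ∣ e
  · rw [card_KK_of_dvd hp hd h]; omega
  · rw [card_KK_of_not_dvd hp hd h]

lemma exists_descend (hp : p.Prime) (hd : p * e = d) (β : (ZMod d)ˣ → ℤ)
    (hβ : ∀ k ∈ KK d p, ∀ x, β (k * x) = β x) :
    ∃ β' : (ZMod e)ˣ → ℤ, ∀ u, β u = β' (ZMod.unitsMap (Dvd.intro_left p hd : e ∣ d) u) := by
  have hs := ZMod.unitsMap_surjective (Dvd.intro_left p hd : e ∣ d)
  choose σ hσ using hs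
  refine ⟨fun v => β (σ v), ?_⟩
  intro u
  have h1 : u * (σ (ZMod.unitsMap (Dvd.intro_left p hd : e ∣ d) u))⁻¹ ∈ KK d p := by
    rw [← unitsMap_eq_one hp hd, map_mul, map_inv, hσ]; simp
  have h2 := hβ _ h1 (σ (ZMod.unitsMap (Dvd.intro_left p hd : e ∣ d) u))
  rw [inv_mul_cancel_right] at h2
  exact h2

end fibers

lemma sp_le_KK {d : ℕ} (ps : List ℕ) : sp (ps.map (KK d)) ≤ KK d ps.prod := by
  induction ps with
  | nil => exact bot_le
  | cons p ps ih =>
    rw [List.map_cons, List.prod_cons]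
    apply sup_le
    · intro u hu
      rw [mem_KK] at hu ⊢
      rw [Nat.cast_mul, ← mul_assoc, hu]
    · intro u hu
      have h1 := ih hu
      rw [mem_KK] at h1 ⊢
      rw [Nat.cast_mul, mul_left_comm, h1]

lemma dir_KK {d : ℕ} : ∀ ps : List ℕ, ps.Nodup → (∀ p ∈ ps, p.Prime) → Dir (ps.map (KK d)) := by
  intro ps
  induction ps with
  | nil => intro _ _; exact trivial
  | cons p ps ih =>
    intro hnd hps
    rw [List.nodup_cons] at hnd
    refine ⟨?_, ih hnd.2 (fun q hq => hps q (List.mem_cons_of_mem _ hq))⟩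
    rw [Subgroup.disjoint_def]
    intro u hu hu'
    have h1 := sp_le_KK ps hu'
    rw [mem_KK] at hu h1
    have hp := hps p List.mem_cons_self
    have hc : Nat.Coprime p ps.prod := by
      rw [Nat.Prime.coprime_iff_not_dvd hp]
      intro h
      obtain ⟨q, hq, hpq⟩ := (Prime.dvd_prod_iff hp.prime).mp h
      have := (Nat.prime_dvd_prime_iff_eq hp (hps q (List.mem_cons_of_mem _ hq))).mp hpq
      rw [this] at hnd
      exact hnd.1 hq
    have hc2 : IsCoprime (p : ZMod d) (ps.prod : ZMod d) := by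
      have h2 : IsCoprime (p : ℤ) (ps.prod : ℤ) := Nat.isCoprime_iff_coprime.mpr hc
      have h3 := h2.map (Int.castRingHom (ZMod d))
      rw [eq_intCast, eq_intCast, Int.cast_natCast, Int.cast_natCast] at h3
      exact h3
    obtain ⟨a, b, hab⟩ := hc2
    apply Units.ext
    rw [Units.val_one]
    linear_combination (1 - (u : ZMod d)) * hab + a * hu + b * h1

section dist

variable {m M d p e : ℕ} [NeZero m] [NeZero d] [NeZero e] {Q : Type*} [AddCommGroup Q]
  {c : ZMod m → Q}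

lemma val_unitsMap (hed : e ∣ d) {u : (ZMod d)ˣ} {v : (ZMod e)ˣ}
    (h : ZMod.unitsMap hed u = v) :
    (v : ZMod e).val + (u : ZMod d).val / e * e = (u : ZMod d).val := by
  have h1 : (v : ZMod e) = (((u : ZMod d).val : ℕ) : ZMod e) := by
    rw [← h, ZMod.unitsMap_val, ZMod.natCast_val]
  have h2 : (v : ZMod e).val = (u : ZMod d).val % e := by
    rw [h1, ZMod.val_natCast]
  rw [h2]
  exact Nat.mod_add_div' _ _

lemma sum_fiber (hp : p.Prime) (hd : p * e = d) (_hM : M * d = m) (v : (ZMod e)ˣ) :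
    ∑ u ∈ univ.filter (fun u : (ZMod d)ˣ => ZMod.unitsMap (Dvd.intro_left p hd : e ∣ d) u = v),
      c (iota M (u : ZMod d)) =
    ∑ i ∈ (range p).filter (fun i => ¬ p ∣ (v : ZMod e).val + i * e),
      c ((M * ((v : ZMod e).val + i * e) : ℕ) : ZMod m) := by
  have he : 0 < e := NeZero.pos e
  have hv : (v : ZMod e).val < e := ZMod.val_lt _
  have hpd : p ∣ d := Dvd.intro e hd
  refine Finset.sum_bij (fun u _ => (u : ZMod d).val / e) ?_ ?_ ?_ ?_
  · intro u hu
    have h1 := val_unitsMap _ (mem_filter.mp hu).2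
    rw [mem_filter, mem_range, h1]
    refine ⟨?_, ?_⟩
    · apply Nat.div_lt_of_lt_mul
      rw [mul_comm, hd]; exact ZMod.val_lt _
    · intro h
      have h2 : Nat.Coprime (u : ZMod d).val d := ZMod.val_coe_unit_coprime u
      have h3 : p ∣ Nat.gcd (u : ZMod d).val d := Nat.dvd_gcd h hpd
      rw [h2] at h3
      exact hp.one_lt.ne' (Nat.dvd_one.mp h3)
  · intro u hu u' hu' h
    have h1 := val_unitsMap _ (mem_filter.mp hu).2
    have h2 := val_unitsMap _ (mem_filter.mp hu').2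
    rw [h, h2] at h1
    exact Units.ext (ZMod.val_injective d h1.symm)
  · intro i hi
    rw [mem_filter, mem_range] at hi
    have h1 : Nat.Coprime ((v : ZMod e).val + i * e) e := by
      rw [Nat.coprime_add_mul_right_left]
      exact ZMod.val_coe_unit_coprime v
    have h2 : Nat.Coprime ((v : ZMod e).val + i * e) d := by
      rw [← hd]
      exact Nat.Coprime.mul_right
        ((Nat.coprime_comm).mp ((Nat.Prime.coprime_iff_not_dvd hp).mpr hi.2)) h1
    have hlt : (v : ZMod e).val + i * e < d := by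
      rw [← hd]
      calc (v : ZMod e).val + i * e < e + i * e := by omega
        _ = (i + 1) * e := by ring
        _ ≤ p * e := Nat.mul_le_mul_right _ hi.1
    have h3 : ((ZMod.unitOfCoprime _ h2 : (ZMod d)ˣ) : ZMod d).val = (v : ZMod e).val + i * e := by
      rw [ZMod.coe_unitOfCoprime, ZMod.val_natCast, Nat.mod_eq_of_lt hlt]
    refine ⟨ZMod.unitOfCoprime _ h2, ?_, ?_⟩
    · rw [mem_filter]
      refine ⟨mem_univ _, ?_⟩
      apply Units.ext
      rw [ZMod.unitsMap_val, ← ZMod.natCast_val, h3]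
      push_cast
      rw [ZMod.natCast_zmod_val, ZMod.natCast_self, mul_zero, add_zero]
    · rw [h3, Nat.add_mul_div_right _ _ he, Nat.div_eq_of_lt hv, zero_add]
  · intro u hu
    have h1 := val_unitsMap _ (mem_filter.mp hu).2
    rw [h1]
    rfl

lemma dist_all (hc : OddDist c) (hp : p.Prime) (hd : p * e = d) (hM : M * d = m) (v : (ZMod e)ˣ) :
    ∑ i ∈ range p, c ((M * ((v : ZMod e).val + i * e) : ℕ) : ZMod m) =
      c (iota (M * p) (v : ZMod e)) := by
  have h1 := hc.dist p (M * e) hp (by rw [← hM, ← hd]; ring) ((M * (v : ZMod e).val : ℕ) : ZMod m)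
  have h2 : (iota (M * p) (v : ZMod e) : ZMod m) = (p : ZMod m) * ((M * (v : ZMod e).val : ℕ) : ZMod m) := by
    unfold iota
    push_cast; ring
  rw [h2, ← h1]
  refine sum_congr rfl fun i _ => ?_
  congr 1
  push_cast; ring

lemma fiber_dvd (hc : OddDist c) (hp : p.Prime) (hd : p * e = d) (hM : M * d = m) (hpe : p ∣ e)
    (v : (ZMod e)ˣ) :
    ∑ u ∈ univ.filter (fun u : (ZMod d)ˣ => ZMod.unitsMap (Dvd.intro_left p hd : e ∣ d) u = v),
      c (iota M (u : ZMod d)) = c (iota (M * p) (v : ZMod e)) := by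
  rw [sum_fiber hp hd hM, ← dist_all hc hp hd hM, Finset.filter_true_of_mem]
  intro i _ h
  have h1 : p ∣ (v : ZMod e).val := (Nat.dvd_add_left (hpe.mul_left i)).mp h
  have h2 : Nat.Coprime (v : ZMod e).val e := ZMod.val_coe_unit_coprime v
  have h3 : p ∣ Nat.gcd (v : ZMod e).val e := Nat.dvd_gcd h1 hpe
  rw [h2] at h3
  exact hp.one_lt.ne' (Nat.dvd_one.mp h3)

lemma fiber_not_dvd (hc : OddDist c) (hp : p.Prime) (hd : p * e = d) (hM : M * d = m)
    (hpe : Nat.Coprime p e) (v : (ZMod e)ˣ) :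
    ∑ u ∈ univ.filter (fun u : (ZMod d)ˣ => ZMod.unitsMap (Dvd.intro_left p hd : e ∣ d) u = v),
      c (iota M (u : ZMod d)) = c (iota (M * p) (v : ZMod e)) -
        c (iota (M * p) (((ZMod.unitOfCoprime p hpe)⁻¹ * v : (ZMod e)ˣ) : ZMod e)) := by
  have he : 0 < e := NeZero.pos e
  have hv : (v : ZMod e).val < e := ZMod.val_lt _
  rw [sum_fiber hp hd hM, ← dist_all hc hp hd hM,
    ← Finset.sum_filter_add_sum_filter_not (range p) (fun i => ¬ p ∣ (v : ZMod e).val + i * e)]
  rw [eq_sub_iff_add_eq, add_right_inj]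
  -- the exceptional index
  set w : (ZMod e)ˣ := (ZMod.unitOfCoprime p hpe)⁻¹ * v with hw
  have hpw : (p : ZMod e) * (w : ZMod e) = (v : ZMod e) := by
    have h1 : (ZMod.unitOfCoprime p hpe) * w = v := by rw [hw]; simp
    have h2 := congrArg (fun x : (ZMod e)ˣ => (x : ZMod e)) h1
    simpa using h2
  have hmod : (p * (w : ZMod e).val) % e = (v : ZMod e).val := by
    have h1 : ((p * (w : ZMod e).val : ℕ) : ZMod e) = (v : ZMod e) := by
      push_cast
      rw [ZMod.natCast_zmod_val, hpw]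
    rw [← h1, ZMod.val_natCast]
  set i0 := (p * (w : ZMod e).val) / e with hi0
  have hi0e : (v : ZMod e).val + i0 * e = p * (w : ZMod e).val := by
    rw [← hmod, hi0]; exact Nat.mod_add_div' _ _
  have hi0p : i0 < p := by
    apply Nat.div_lt_of_lt_mul
    rw [mul_comm e]
    exact Nat.mul_lt_mul_of_pos_left (ZMod.val_lt _) hp.pos
  have hfil : (range p).filter (fun i => ¬ ¬ p ∣ (v : ZMod e).val + i * e) = {i0} := by
    ext i
    rw [mem_filter, mem_range, mem_singleton, not_not]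
    constructor
    · rintro ⟨h1, h2⟩
      have h3 : (v : ZMod e).val + i * e ≡ (v : ZMod e).val + i0 * e [MOD p] := by
        refine ((Nat.modEq_zero_iff_dvd).mpr h2).trans ((Nat.modEq_zero_iff_dvd).mpr ?_).symm
        rw [hi0e]; exact dvd_mul_right _ _
      have h4 : i * e ≡ i0 * e [MOD p] := Nat.ModEq.add_left_cancel' _ h3
      have h5 : i ≡ i0 [MOD p] := Nat.ModEq.cancel_right_of_coprime (by rwa [Nat.Coprime] at hpe) h4
      exact Nat.ModEq.eq_of_lt_of_lt h5 h1 hi0p
    · rintro rfl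
      refine ⟨hi0p, ?_⟩
      rw [hi0e]; exact dvd_mul_right _ _
  rw [hfil, sum_singleton, hi0e]
  unfold iota
  congr 2
  ring

end dist

end Pool.Agent.Q63.FQ
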