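import Pool.Agent.Q63.FQ.Main

/-!
Hodge characters of small length are generated by the standard ones.
-/

namespace Pool.Agent.Q63.FQ

set_option linter.unusedSectionVars false

open Finset Pool.Agent.H916R2

variable {m : ℕ} [NeZero m]

lemma lv_eq_addOrderOf (a : ZMod m) : lv a = addOrderOf a := by
  unfold lv
  conv_rhs => rw [← ZMod.natCast_zmod_val a]
  rw [ZMod.addOrderOf_coe _ (NeZero.ne m), Nat.gcd_comm]

/-- the weighted norm of the odd function of a multiset -/
lemma Phi_EE (ω : ℕ → ℕ) (s : Multiset (ZMod m)) :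
    Phi ω (EE s) ≤ 2 * (s.map fun a => ω (lv a)).sum := by
  induction s using Multiset.induction_on with
  | empty =>
    rw [EE_zero]
    simp [Phi]
  | cons a s ih =>
    rw [EE_cons, Multiset.map_cons, Multiset.sum_cons]
    refine (Phi_add_le ω _ _).trans ?_
    have h1 : Phi ω (eps a) ≤ 2 * ω (lv a) := by
      have e1 : Phi ω (eps a) ≤ Phi ω (Pi.single a 1 : ZMod m → ℤ) +
          Phi ω (Pi.single (-a) 1 : ZMod m → ℤ) := Phi_sub_le ω _ _
      have e2 : ∀ b : ZMod m, Phi ω (Pi.single b 1 : ZMod m → ℤ) = ω (lv b) := by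
        intro b
        unfold Phi
        rw [Finset.sum_eq_single b]
        · simp
        · intro c _ hc
          rw [Pi.single_eq_of_ne hc]; simp
        · intro h
          exact absurd (mem_univ b) h
      rw [e2, e2, lv_neg] at e1
      omega
    omega

lemma sum_wt (s : Multiset (ZMod m)) : (s.map fun a => wt (lv a)).sum =
    Multiset.card s + Multiset.card (s.filter fun a => addOrderOf a % 4 = 2) := by
  induction s using Multiset.induction_on with
  | empty => simp
  | cons a s ih =>
    rw [Multiset.map_cons, Multiset.sum_cons, ih, Multiset.card_cons]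
    by_cases h : addOrderOf a % 4 = 2
    · rw [Multiset.filter_cons_of_pos (p := fun a => addOrderOf a % 4 = 2) _ h, Multiset.card_cons]
      have : wt (lv a) = 2 := by unfold wt; rw [lv_eq_addOrderOf, if_pos h]
      omega
    · rw [Multiset.filter_cons_of_neg (p := fun a => addOrderOf a % 4 = 2) _ h]
      have : wt (lv a) = 1 := by unfold wt; rw [lv_eq_addOrderOf, if_neg h]
      omega

lemma sum_w4 (s : Multiset (ZMod m)) : (s.map fun a => w4 (lv a)).sum =
    Multiset.card (s.filter fun a => 4 ∣ addOrderOf a) := by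
  induction s using Multiset.induction_on with
  | empty => simp
  | cons a s ih =>
    rw [Multiset.map_cons, Multiset.sum_cons, ih]
    by_cases h : 4 ∣ addOrderOf a
    · rw [Multiset.filter_cons_of_pos (p := fun a => 4 ∣ addOrderOf a) _ h, Multiset.card_cons]
      have : w4 (lv a) = 1 := by unfold w4; rw [lv_eq_addOrderOf, if_pos h]
      omega
    · rw [Multiset.filter_cons_of_neg (p := fun a => 4 ∣ addOrderOf a) _ h]
      have : w4 (lv a) = 0 := by unfold w4; rw [lv_eq_addOrderOf, if_neg h]
      omega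

/-- **Short Hodge characters are generated by the standard ones.** -/
theorem generated_of_small (s : Multiset (ZMod m)) (hs : IsHodge m s) (hne : s ≠ 0)
    (h2 : ∀ p q : ℕ, p.Prime → q.Prime → p ≠ 2 → q ≠ 2 → p ≠ q → p ∣ m → q ∣ m →
      4 * (Multiset.card s + Multiset.card (s.filter fun a => addOrderOf a % 4 = 2)) <
        (p - 1) * (q - 1))
    (h4 : 4 ∣ m → ∀ p : ℕ, p.Prime → p ≠ 2 → p ∣ m →
      2 * Multiset.card (s.filter fun a => 4 ∣ addOrderOf a) < p - 1) :
    Generated m (fun _ => False) s := by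
  set x : ZMod m → ℤ := fun a => ((s.count a : ℕ) : ℤ) with hx
  have hod : od x = EE s := by
    funext a
    rw [EE_apply]
    rfl
  have hA := Phi_EE wt s
  have hB := Phi_EE w4 s
  rw [sum_wt] at hA
  rw [sum_w4] at hB
  have hsm : Small m (Phi wt (od x)) (Phi w4 (od x)) := by
    rw [hod]
    refine ⟨?_, ?_⟩
    · intro p q hp hq hp2 hq2 hpq hpm hqm
      have := h2 p q hp hq hp2 hq2 hpq hpm hqm
      omega
    · intro h4m p hp hp2 hpm
      have := h4 h4m p hp hp2 hpm
      omega
  have h0 := descend m x hs.rel (fun a _ => Nat.le_of_dvd (NeZero.pos m) (lv_dvd a)) hsm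
  have h1 := h0 _ (cQ m (fun _ => False)) cQ_oddDist
  have h3 : ∑ a, (0 : ZMod m → ℤ) a • cQ m (fun _ => False) a = 0 := by simp
  rw [h3, hx, sum_count, cQ_sum, QuotientAddGroup.eq_zero_iff] at h1
  exact generated_of_mem_LL (fun _ h => h.elim) (fun _ h => h.elim) hs.1 hs.2.1 hne h1

end Pool.Agent.Q63.FQ
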