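import Pool.Agent.H916R2.Relations
import Pool.Agent.Q63.FQ.Box

/-!
Levels of residues; the part of highest level of a relation has vanishing alternating sums.
-/

namespace Pool.Agent.Q63.FQ

set_option linter.unusedSectionVars false

open Finset Pool.Agent.H916R2

/-- the level (order) of a residue -/
def lv {m : ℕ} (a : ZMod m) : ℕ := m / Nat.gcd a.val m

/-- the units that fix `p` -/
def KK (d p : ℕ) : Subgroup (ZMod d)ˣ := MulAction.stabilizer (ZMod d)ˣ (p : ZMod d)

lemma mem_KK {d p : ℕ} {u : (ZMod d)ˣ} : u ∈ KK d p ↔ (u : ZMod d) * (p : ZMod d) = (p : ZMod d) := by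
  unfold KK
  rw [MulAction.mem_stabilizer_iff, Units.smul_def, smul_eq_mul]

section

variable {m : ℕ} [NeZero m]

lemma lv_dvd (a : ZMod m) : lv a ∣ m := Nat.div_dvd_of_dvd (Nat.gcd_dvd_right _ _)

lemma gcd_mul_lv (a : ZMod m) : Nat.gcd a.val m * lv a = m :=
  Nat.mul_div_cancel' (Nat.gcd_dvd_right _ _)

lemma lv_pos (a : ZMod m) : 0 < lv a := by
  rcases Nat.eq_zero_or_pos (lv a) with h | h
  · have := gcd_mul_lv a
    rw [h, mul_zero] at this
    exact absurd this.symm (NeZero.ne m)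
  · exact h

lemma iota_val {k d : ℕ} [NeZero d] (h : k * d = m) (b : ZMod d) :
    (iota k b : ZMod m).val = k * b.val := by
  have hk : 0 < k := Nat.pos_of_ne_zero (by rintro rfl; simp at h; exact NeZero.ne m h.symm)
  unfold iota
  rw [ZMod.val_natCast, Nat.mod_eq_of_lt]
  rw [← h]; exact Nat.mul_lt_mul_of_pos_left (ZMod.val_lt b) hk

lemma iota_inj {k d : ℕ} [NeZero d] (h : k * d = m) :
    Function.Injective (fun b : ZMod d => (iota k b : ZMod m)) := by
  intro b b' hbb
  have hk : 0 < k := Nat.pos_of_ne_zero (by rintro rfl; simp at h; exact NeZero.ne m h.symm)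
  have h1 := congrArg ZMod.val hbb
  simp only at h1
  rw [iota_val h, iota_val h] at h1
  exact ZMod.val_injective d (Nat.eq_of_mul_eq_mul_left hk h1)

lemma lv_iota {k d : ℕ} [NeZero d] (h : k * d = m) (u : (ZMod d)ˣ) :
    lv (iota k (u : ZMod d) : ZMod m) = d := by
  have hk : 0 < k := Nat.pos_of_ne_zero (by rintro rfl; simp at h; exact NeZero.ne m h.symm)
  unfold lv
  rw [iota_val h]
  have h1 : Nat.gcd (k * (u : ZMod d).val) m = k := by
    conv_lhs => rw [← h]
    rw [Nat.gcd_mul_left]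
    have : Nat.gcd (u : ZMod d).val d = 1 := ZMod.val_coe_unit_coprime u
    rw [this, mul_one]
  rw [h1, ← h, Nat.mul_div_cancel_left _ hk]

lemma exists_iota {k d : ℕ} [NeZero d] (h : k * d = m) {a : ZMod m} (ha : lv a = d) :
    ∃ u : (ZMod d)ˣ, (iota k (u : ZMod d) : ZMod m) = a := by
  have hd : 0 < d := NeZero.pos d
  have h1 := gcd_mul_lv a
  rw [ha] at h1
  have h2 : Nat.gcd a.val m = k := Nat.eq_of_mul_eq_mul_right hd (h1.trans h.symm)
  obtain ⟨b, hb⟩ : k ∣ a.val := by rw [← h2]; exact Nat.gcd_dvd_left _ _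
  have hk : 0 < k := Nat.pos_of_ne_zero (by rintro rfl; simp at h; exact NeZero.ne m h.symm)
  have h3 : Nat.Coprime b d := by
    have h4 : Nat.gcd (k * b) (k * d) = k := by rw [← hb, h]; exact h2
    rw [Nat.gcd_mul_left] at h4
    have : k * Nat.gcd b d = k * 1 := by rw [h4, mul_one]
    exact Nat.eq_of_mul_eq_mul_left hk this
  refine ⟨ZMod.unitOfCoprime b h3, ?_⟩
  rw [ZMod.coe_unitOfCoprime, iota_natCast h, ← hb, ZMod.natCast_zmod_val]

lemma lv_neg (a : ZMod m) : lv (-a) = lv a := by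
  have key : ∀ a : ZMod m, lv (-a) = lv a := by
    intro a
    have hk := gcd_mul_lv a
    have : NeZero (lv a) := ⟨(lv_pos a).ne'⟩
    obtain ⟨u, hu⟩ := exists_iota hk rfl
    rw [← hu, ← iota_neg hk]
    have h1 : -(u : ZMod (lv a)) = ((-u : (ZMod (lv a))ˣ) : ZMod (lv a)) := by simp
    rw [h1]
    have h2 := lv_iota (m := m) hk (-u)
    have h3 := lv_iota (m := m) hk u
    rw [h2, h3]
  exact key a

lemma fix_of_modEq {a : ZMod m} {t : (ZMod m)ˣ} (h : (t : ZMod m).val ≡ 1 [MOD lv a]) :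
    (t : ZMod m) * a = a := by
  obtain ⟨b, hb⟩ : Nat.gcd a.val m ∣ a.val := Nat.gcd_dvd_left _ _
  have h1 : (t : ZMod m).val * a.val ≡ 1 * a.val [MOD m] := by
    have h2 := (h.mul_left' (Nat.gcd a.val m)).mul_right b
    rw [gcd_mul_lv a] at h2
    have e1 : Nat.gcd a.val m * (t : ZMod m).val * b = (t : ZMod m).val * a.val := by
      rw [mul_comm (Nat.gcd a.val m), mul_assoc, ← hb]
    have e2 : Nat.gcd a.val m * 1 * b = 1 * a.val := by
      rw [mul_one, one_mul, ← hb]
    rw [e1, e2] at h2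
    exact h2
  have h3 := (ZMod.natCast_eq_natCast_iff _ _ _).mpr h1
  push_cast at h3
  rw [ZMod.natCast_zmod_val, ZMod.natCast_zmod_val, one_mul] at h3
  exact h3

lemma exists_fix {d e p : ℕ} (hd : d ∣ m) (he : e ∣ m) (hp : p.Prime) (hpd : p ∣ d)
    (hg : Nat.gcd d e ∣ d / p) (k : (ZMod d)ˣ) (hk : k ∈ KK d p) :
    ∃ t : (ZMod m)ˣ, ZMod.unitsMap hd t = k ∧ (t : ZMod m).val ≡ 1 [MOD e] := by
  have hm : m ≠ 0 := NeZero.ne m
  have hd0 : d ≠ 0 := fun h => hm (by rw [h] at hd; exact Nat.eq_zero_of_zero_dvd hd)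
  have he0 : e ≠ 0 := fun h => hm (by rw [h] at he; exact Nat.eq_zero_of_zero_dvd he)
  have : NeZero d := ⟨hd0⟩
  rw [mem_KK] at hk
  have h1 : p * (k : ZMod d).val ≡ p * 1 [MOD d] := by
    rw [← ZMod.natCast_eq_natCast_iff]
    push_cast
    rw [ZMod.natCast_zmod_val, mul_one, mul_comm]
    exact hk
  have h2 : (k : ZMod d).val ≡ 1 [MOD d / p] := by
    apply Nat.ModEq.mul_left_cancel' hp.ne_zero
    rw [Nat.mul_div_cancel' hpd]
    exact h1
  obtain ⟨n, hn1, hn2⟩ := Nat.chineseRemainder' (h2.of_dvd hg)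
  have hc1 : Nat.Coprime n d := by
    have h3 : Nat.gcd n d = Nat.gcd (k : ZMod d).val d := hn1.gcd_eq
    rw [Nat.Coprime, h3]
    exact ZMod.val_coe_unit_coprime k
  have hc2 : Nat.Coprime n e := by
    have h3 : Nat.gcd n e = Nat.gcd 1 e := hn2.gcd_eq
    rw [Nat.Coprime, h3, Nat.gcd_one_left]
  have hc : Nat.Coprime n (Nat.lcm d e) :=
    Nat.Coprime.coprime_dvd_right (Nat.lcm_dvd_mul d e) (Nat.Coprime.mul_right hc1 hc2)
  have hl : Nat.lcm d e ∣ m := Nat.lcm_dvd hd he
  obtain ⟨t, ht⟩ := ZMod.unitsMap_surjective hl (ZMod.unitOfCoprime n hc)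
  have ht' : (((t : ZMod m).val : ℕ) : ZMod (Nat.lcm d e)) = (n : ZMod (Nat.lcm d e)) := by
    have := congrArg (fun x : (ZMod (Nat.lcm d e))ˣ => (x : ZMod (Nat.lcm d e))) ht
    simp only [ZMod.coe_unitOfCoprime] at this
    rw [← this, ZMod.unitsMap_val, ZMod.natCast_val]
  have ht2 : (t : ZMod m).val ≡ n [MOD Nat.lcm d e] := (ZMod.natCast_eq_natCast_iff _ _ _).mp ht'
  refine ⟨t, ?_, (ht2.of_dvd (Nat.dvd_lcm_right d e)).trans hn2⟩
  apply Units.ext
  rw [ZMod.unitsMap_val, ← ZMod.natCast_val]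
  have h4 : (t : ZMod m).val ≡ (k : ZMod d).val [MOD d] :=
    (ht2.of_dvd (Nat.dvd_lcm_left d e)).trans hn1
  rw [(ZMod.natCast_eq_natCast_iff _ _ _).mpr h4, ZMod.natCast_zmod_val]

end

lemma sum_unitsMap {d m : ℕ} [NeZero m] [NeZero d] (hd : d ∣ m) (F : (ZMod d)ˣ → ℂ) :
    ∃ c : ℕ, 0 < c ∧ ∑ t : (ZMod m)ˣ, F (ZMod.unitsMap hd t) = c * ∑ s : (ZMod d)ˣ, F s := by
  classical
  refine ⟨(univ.filter (fun t : (ZMod m)ˣ => ZMod.unitsMap hd t = 1)).card, ?_, ?_⟩
  · apply Finset.card_pos.mpr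
    exact ⟨1, by simp⟩
  · rw [← Finset.sum_fiberwise univ (fun t : (ZMod m)ˣ => ZMod.unitsMap hd t), mul_sum]
    refine sum_congr rfl fun s _ => ?_
    have h1 : ∀ t ∈ univ.filter (fun t : (ZMod m)ˣ => ZMod.unitsMap hd t = s),
        F (ZMod.unitsMap hd t) = F s := by
      intro t ht
      rw [(mem_filter.mp ht).2]
    rw [sum_congr rfl h1, sum_const, nsmul_eq_mul]
    congr 2
    obtain ⟨t0, ht0⟩ := ZMod.unitsMap_surjective hd s
    apply Finset.card_bij (fun t _ => t0⁻¹ * t)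
    · intro t ht
      rw [mem_filter] at ht ⊢
      refine ⟨mem_univ _, ?_⟩
      rw [map_mul, map_inv, ht0, ht.2]; simp
    · intro a _ b _ h
      exact mul_left_cancel h
    · intro b hb
      rw [mem_filter] at hb
      refine ⟨t0 * b, ?_, by simp⟩
      rw [mem_filter]
      refine ⟨mem_univ _, ?_⟩
      rw [map_mul, hb.2, ht0, mul_one]

/-- nonvanishing at a unit for a character that is nontrivial on all the groups `KK d p` -/
lemma SS_one_ne_zero {d : ℕ} [NeZero d] (χ : DirichletCharacter ℂ d) (hχ : χ.Odd)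
    (h : ∀ p ∈ d.primeFactors, ∃ k ∈ KK d p, χ (k : ZMod d) ≠ 1) : SS χ 1 ≠ 0 := by
  obtain ⟨a, ha⟩ := exists_SS_ne_zero χ hχ
  have hu : IsUnit a := by
    by_contra hcon
    have h1 : ¬ Nat.Coprime a.val d := by
      intro h2
      apply hcon
      have := (ZMod.isUnit_iff_coprime a.val d).mpr h2
      rwa [ZMod.natCast_zmod_val] at this
    obtain ⟨p, hp, hpa, hpd⟩ := Nat.Prime.not_coprime_iff_dvd.mp h1
    obtain ⟨k, hk, hkχ⟩ := h p (Nat.mem_primeFactors.mpr ⟨hp, hpd, NeZero.ne d⟩)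
    obtain ⟨b, hb⟩ := hpa
    have h3 : (k : ZMod d) * a = a := by
      have h4 : a = (p : ZMod d) * (b : ZMod d) := by
        rw [← ZMod.natCast_zmod_val a, hb]; push_cast; rfl
      rw [h4, ← mul_assoc, mem_KK.mp hk]
    have h5 := SS_unit χ k a
    rw [h3] at h5
    have h6 : (1 - (χ (k : ZMod d))⁻¹) * SS χ a = 0 := by linear_combination h5
    rcases mul_eq_zero.mp h6 with h7 | h7
    · apply hkχ
      have : (χ (k : ZMod d))⁻¹ = 1 := (sub_eq_zero.mp h7).symm
      exact inv_eq_one.mp this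
    · exact ha h7
  obtain ⟨u, rfl⟩ := hu
  intro h1
  apply ha
  have h2 := SS_unit χ u 1
  rw [mul_one] at h2
  rw [h2, h1, mul_zero]

theorem char_zero {m d M : ℕ} [NeZero m] [NeZero d] (hM : M * d = m) (X : ZMod m → ℤ)
    (hX : Rel X) (hodd : ∀ a, X (-a) = - X a) (hsupp : ∀ a, X a ≠ 0 → lv a ≤ d)
    (χ : DirichletCharacter ℂ d) :
    (∃ p ∈ d.primeFactors, ∀ k ∈ KK d p, χ (k : ZMod d) = 1) ∨
      ∑ u : (ZMod d)ˣ, ((X (iota M (u : ZMod d)) : ℤ) : ℂ) * χ (u : ZMod d) = 0 := by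
  classical
  by_cases hprim : ∃ p ∈ d.primeFactors, ∀ k ∈ KK d p, χ (k : ZMod d) = 1
  · exact Or.inl hprim
  right
  push Not at hprim
  have hdm : d ∣ m := Dvd.intro_left M hM
  rcases χ.even_or_odd with heven | hχodd
  · -- even characters
    have h1 : ∑ u : (ZMod d)ˣ, ((X (iota M (u : ZMod d)) : ℤ) : ℂ) * χ (u : ZMod d) =
        ∑ u : (ZMod d)ˣ, -(((X (iota M (u : ZMod d)) : ℤ) : ℂ) * χ (u : ZMod d)) := by
      conv_lhs => rw [← Equiv.sum_comp (Equiv.neg (ZMod d)ˣ)]
      refine sum_congr rfl fun u _ => ?_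
      simp only [Equiv.neg_apply, Units.val_neg]
      rw [iota_neg hM, hodd]
      have h2 : χ (-(u : ZMod d)) = χ (u : ZMod d) := by
        rw [neg_eq_neg_one_mul, map_mul, heven, one_mul]
      rw [h2]
      push_cast; ring
    rw [sum_neg_distrib] at h1
    have h2 : (2 : ℂ) * ∑ u : (ZMod d)ˣ, ((X (iota M (u : ZMod d)) : ℤ) : ℂ) * χ (u : ZMod d) = 0 := by
      linear_combination h1
    simpa using h2
  · set ψ : DirichletCharacter ℂ d := χ⁻¹ with hψ
    have hψu : ∀ u : (ZMod d)ˣ, ψ (u : ZMod d) = (χ (u : ZMod d))⁻¹ := by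
      intro u
      rw [hψ, MulChar.inv_apply_eq_inv']
    have hψodd : ψ.Odd := by
      unfold DirichletCharacter.Odd at hχodd ⊢
      have := hψu (-1)
      simp only [Units.val_neg, Units.val_one] at this
      rw [this, hχodd]; norm_num
    have hψp : ∀ p ∈ d.primeFactors, ∃ k ∈ KK d p, ψ (k : ZMod d) ≠ 1 := by
      intro p hp
      obtain ⟨k, hk, hk1⟩ := hprim p hp
      refine ⟨k, hk, ?_⟩
      rw [hψu]
      intro h
      exact hk1 (inv_eq_one.mp h)
    set ψ' : DirichletCharacter ℂ m := DirichletCharacter.changeLevel hdm ψ with hψ'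
    have hψ't : ∀ t : (ZMod m)ˣ, ψ' (t : ZMod m) = ψ ((ZMod.unitsMap hdm t : (ZMod d)ˣ) : ZMod d) := by
      intro t
      rw [hψ', DirichletCharacter.changeLevel_eq_cast_of_dvd, ZMod.unitsMap_val]
    -- the total relation
    have htot : ∑ a, ((X a : ℤ) : ℂ) * SS ψ' a = 0 := by
      unfold SS
      have h2 : ∑ a, ((X a : ℤ) : ℂ) * ∑ t : (ZMod m)ˣ, ψ' t * (saw ((t : ZMod m) * a) : ℂ) =
          ∑ t : (ZMod m)ˣ, ψ' t * ((∑ a, X a * saw ((t : ZMod m) * a) : ℤ) : ℂ) := by
        simp only [mul_sum, Int.cast_sum, Int.cast_mul]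
        rw [sum_comm]
        refine sum_congr rfl fun t _ => sum_congr rfl fun a _ => ?_
        ring
      rw [h2]
      apply sum_eq_zero
      intro t _
      rw [hX t]; simp
    -- the entries of other levels do not contribute
    have hother : ∀ a : ZMod m, ¬ d ∣ lv a → SS ψ' a = 0 := by
      intro a ha
      have hd0 : d ≠ 0 := NeZero.ne d
      have he0 : lv a ≠ 0 := (lv_pos a).ne'
      obtain ⟨p, hp, hlt⟩ : ∃ p, p.Prime ∧ (lv a).factorization p < d.factorization p := by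
        by_contra hcon
        push Not at hcon
        apply ha
        rw [← Nat.factorization_prime_le_iff_dvd hd0 he0]
        exact hcon
      have hpd : p ∣ d := by
        by_contra hcon
        rw [Nat.factorization_eq_zero_of_not_dvd hcon] at hlt
        omega
      have hg : Nat.gcd d (lv a) ∣ d / p := by
        have hdp0 : d / p ≠ 0 := by
          have := Nat.div_pos (Nat.le_of_dvd (NeZero.pos d) hpd) hp.pos
          omega
        rw [← Nat.factorization_prime_le_iff_dvd (Nat.gcd_ne_zero_left hd0) hdp0]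
        intro q hq
        rw [Nat.factorization_gcd hd0 he0, Nat.factorization_div hpd, hp.factorization]
        simp only [Finsupp.inf_apply, Finsupp.coe_tsub, Pi.sub_apply]
        by_cases hqp : q = p
        · subst hqp
          rw [Finsupp.single_eq_same]
          omega
        · rw [Finsupp.single_eq_of_ne hqp]
          exact le_trans (min_le_left _ _) (by omega)
      obtain ⟨k, hk, hk1⟩ := hψp p (Nat.mem_primeFactors.mpr ⟨hp, hpd, hd0⟩)
      obtain ⟨t, ht1, ht2⟩ := exists_fix hdm (lv_dvd a) hp hpd hg k hk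
      have h5 := SS_unit ψ' t a
      rw [fix_of_modEq ht2, hψ't, ht1] at h5
      have h6 : (1 - (ψ (k : ZMod d))⁻¹) * SS ψ' a = 0 := by linear_combination h5
      rcases mul_eq_zero.mp h6 with h7 | h7
      · exfalso
        apply hk1
        have : (ψ (k : ZMod d))⁻¹ = 1 := (sub_eq_zero.mp h7).symm
        exact inv_eq_one.mp this
      · exact h7
    -- reduction to the top level
    have hinj : Function.Injective (fun u : (ZMod d)ˣ => (iota M (u : ZMod d) : ZMod m)) := by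
      intro u v h
      exact Units.ext (iota_inj hM h)
    have htop : ∑ u : (ZMod d)ˣ, ((X (iota M (u : ZMod d)) : ℤ) : ℂ) *
        SS ψ' (iota M (u : ZMod d)) = 0 := by
      rw [← htot, ← Finset.sum_image (s := univ)
        (g := fun u : (ZMod d)ˣ => (iota M (u : ZMod d) : ZMod m))
        (f := fun a => ((X a : ℤ) : ℂ) * SS ψ' a) (fun b _ b' _ h => hinj h)]
      apply sum_subset (subset_univ _)
      intro a _ ha
      by_cases hXa : X a = 0
      · rw [hXa]; simp
      · by_cases hda : d ∣ lv a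
        · exfalso
          apply ha
          have h1 := hsupp a hXa
          have h2 : lv a = d := le_antisymm h1 (Nat.le_of_dvd (lv_pos a) hda)
          obtain ⟨u, hu⟩ := exists_iota hM h2
          exact mem_image.mpr ⟨u, mem_univ u, hu⟩
        · rw [hother a hda, mul_zero]
    -- the value at a unit
    have hval : ∀ u : (ZMod d)ˣ, SS ψ' (iota M (u : ZMod d)) =
        χ (u : ZMod d) * SS ψ' (iota M (1 : ZMod d) : ZMod m) := by
      intro u
      obtain ⟨t, ht⟩ := ZMod.unitsMap_surjective hdm u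
      have h1 := SS_unit ψ' t (iota M (1 : ZMod d))
      have h2 := unit_iota hM t (1 : ZMod d)
      rw [mul_one, ht] at h2
      rw [h2, hψ't, ht, hψu, inv_inv] at h1
      exact h1
    have hne : SS ψ' (iota M (1 : ZMod d) : ZMod m) ≠ 0 := by
      obtain ⟨c, hc, hsum⟩ := sum_unitsMap (m := m) hdm
        (fun s : (ZMod d)ˣ => ψ (s : ZMod d) * (saw ((s : ZMod d) * 1) : ℂ))
      have h1 : SS ψ' (iota M (1 : ZMod d) : ZMod m) = (M : ℂ) * (c * SS ψ 1) := by
        unfold SS
        rw [← hsum, mul_sum]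
        refine sum_congr rfl fun t _ => ?_
        rw [unit_iota hM, saw_iota hM, hψ't]
        push_cast; ring
      rw [h1]
      have hM0 : (M : ℂ) ≠ 0 := by
        intro h
        have h2 : M = 0 := by exact_mod_cast h
        rw [h2, zero_mul] at hM
        exact NeZero.ne m hM.symm
      exact mul_ne_zero hM0 (mul_ne_zero (by exact_mod_cast hc.ne') (SS_one_ne_zero ψ hψodd hψp))
    have h3 : (∑ u : (ZMod d)ˣ, ((X (iota M (u : ZMod d)) : ℤ) : ℂ) * χ (u : ZMod d)) *
        SS ψ' (iota M (1 : ZMod d) : ZMod m) = 0 := by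
      rw [← htop, sum_mul]
      refine sum_congr rfl fun u _ => ?_
      rw [hval u]; ring
    exact (mul_eq_zero.mp h3).resolve_right hne

/-- vanishing of character sums gives vanishing of alternating sums -/
lemma boxAt_of_chars {d : ℕ} [NeZero d] : ∀ (L : List (Subgroup (ZMod d)ˣ)) (f : (ZMod d)ˣ → ℤ),
    (∀ χ : DirichletCharacter ℂ d, (∃ K ∈ L, ∀ k ∈ K, χ ((k : (ZMod d)ˣ) : ZMod d) = 1) ∨
      ∑ u : (ZMod d)ˣ, (f u : ℂ) * χ (u : ZMod d) = 0) → ∀ x, BoxAt L f x := by
  classical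
  intro L
  induction L with
  | nil =>
    intro f h x
    change f x = 0
    have h1 : ∀ χ : DirichletCharacter ℂ d, ∑ u : (ZMod d)ˣ, (f u : ℂ) * χ (u : ZMod d) = 0 := by
      intro χ
      rcases h χ with ⟨K, hK, _⟩ | h
      · exact absurd hK (List.not_mem_nil)
      · exact h
    have h2 : ∑ u : (ZMod d)ˣ, (f u : ℂ) * ∑ χ : DirichletCharacter ℂ d,
        χ ((x : ZMod d)⁻¹) * χ (u : ZMod d) = 0 := by
      have : ∑ u : (ZMod d)ˣ, (f u : ℂ) * ∑ χ : DirichletCharacter ℂ d,
          χ ((x : ZMod d)⁻¹) * χ (u : ZMod d) = ∑ χ : DirichletCharacter ℂ d,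
          χ ((x : ZMod d)⁻¹) * ∑ u : (ZMod d)ˣ, (f u : ℂ) * χ (u : ZMod d) := by
        simp only [mul_sum]
        rw [sum_comm]
        refine sum_congr rfl fun χ _ => sum_congr rfl fun u _ => ?_
        ring
      rw [this]
      apply sum_eq_zero
      intro χ _
      rw [h1, mul_zero]
    have h3 : ∀ u : (ZMod d)ˣ, ∑ χ : DirichletCharacter ℂ d,
        χ ((x : ZMod d)⁻¹) * χ (u : ZMod d) = if x = u then (Nat.totient d : ℂ) else 0 := by
      intro u
      rw [DirichletCharacter.sum_char_inv_mul_char_eq ℂ x.isUnit]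
      simp only [Units.ext_iff]
    simp only [h3, mul_ite, mul_zero] at h2
    rw [Finset.sum_ite_eq univ x (fun u => (f u : ℂ) * (Nat.totient d : ℂ))] at h2
    simp only [mem_univ, if_true] at h2
    have h4 : (Nat.totient d : ℂ) ≠ 0 := by
      exact_mod_cast (Nat.totient_pos.mpr (NeZero.pos d)).ne'
    have h5 := (mul_eq_zero.mp h2).resolve_right h4
    exact_mod_cast h5
  | cons K L ih =>
    intro f h x k hk
    apply ih
    intro χ
    have hdif : ∑ u : (ZMod d)ˣ, ((dif k f u : ℤ) : ℂ) * χ (u : ZMod d) =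
        (1 - (χ (k : ZMod d))⁻¹) * ∑ u : (ZMod d)ˣ, (f u : ℂ) * χ (u : ZMod d) := by
      have h1 : ∑ u : (ZMod d)ˣ, (f (k * u) : ℂ) * χ (u : ZMod d) =
          (χ (k : ZMod d))⁻¹ * ∑ u : (ZMod d)ˣ, (f u : ℂ) * χ (u : ZMod d) := by
        rw [← Equiv.sum_comp (Equiv.mulLeft k) (fun u => (f u : ℂ) * χ (u : ZMod d)), mul_sum]
        refine sum_congr rfl fun u _ => ?_
        simp only [Equiv.coe_mulLeft, Units.val_mul, map_mul]
        have h2 : χ (k : ZMod d) ≠ 0 := by
          intro h3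
          have h4 : χ (k : ZMod d) * χ ((k⁻¹ : (ZMod d)ˣ) : ZMod d) = 1 := by
            rw [← map_mul]; simp
          rw [h3, zero_mul] at h4
          exact zero_ne_one h4
        field_simp
      unfold dif
      have h5 : ∀ u : (ZMod d)ˣ, (((f u - f (k * u) : ℤ)) : ℂ) * χ (u : ZMod d) =
          (f u : ℂ) * χ (u : ZMod d) - (f (k * u) : ℂ) * χ (u : ZMod d) := by
        intro u; push_cast; ring
      rw [sum_congr rfl fun u _ => h5 u, sum_sub_distrib, h1]
      ring
    rcases h χ with ⟨K', hK', h1⟩ | h1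
    · rcases List.mem_cons.mp hK' with rfl | hK''
      · right
        rw [hdif, h1 k hk]; simp
      · exact Or.inl ⟨K', hK'', h1⟩
    · right
      rw [hdif, h1, mul_zero]

end Pool.Agent.Q63.FQ
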