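import Pool.Agent.Q63.FQ.Dis

/-!
The descent of relations of small norm.
-/

namespace Pool.Agent.Q63.FQ

set_option linter.unusedSectionVars false

open Finset Pool.Agent.H916R2

/-- positive part -/
def pp (z : ℤ) : ℤ := max z 0

lemma pp_sub_neg (z : ℤ) : pp z - pp (-z) = z := by
  unfold pp
  rcases le_total z 0 with h | h
  · rw [max_eq_right h, max_eq_left (by omega)]; ring
  · rw [max_eq_left h, max_eq_right (by omega)]; ring

section defs

variable {m : ℕ} [NeZero m]

/-- the odd part -/
def od (x : ZMod m → ℤ) : ZMod m → ℤ := fun a => x a - x (-a)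

lemma od_neg (x : ZMod m → ℤ) (a : ZMod m) : od x (-a) = - od x a := by
  unfold od; rw [neg_neg]; ring

/-- equality modulo the odd distribution relations -/
def Eqv (x y : ZMod m → ℤ) : Prop :=
  ∀ (Q : Type) [AddCommGroup Q] (c : ZMod m → Q), OddDist c → ∑ a, x a • c a = ∑ a, y a • c a

lemma Eqv.refl (x : ZMod m → ℤ) : Eqv x x := fun _ _ _ _ => rfl

lemma Eqv.symm {x y : ZMod m → ℤ} (h : Eqv x y) : Eqv y x := fun Q _ c hc => (h Q c hc).symm

lemma Eqv.trans {x y z : ZMod m → ℤ} (h : Eqv x y) (h' : Eqv y z) : Eqv x z :=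
  fun Q _ c hc => (h Q c hc).trans (h' Q c hc)

lemma Eqv.add {x y x' y' : ZMod m → ℤ} (h : Eqv x y) (h' : Eqv x' y') :
    Eqv (x + x') (y + y') := by
  intro Q _ c hc
  simp only [Pi.add_apply, add_smul, sum_add_distrib]
  rw [h Q c hc, h' Q c hc]

lemma Eqv.sub {x y x' y' : ZMod m → ℤ} (h : Eqv x y) (h' : Eqv x' y') :
    Eqv (x - x') (y - y') := by
  intro Q _ c hc
  simp only [Pi.sub_apply, sub_smul, sum_sub_distrib]
  rw [h Q c hc, h' Q c hc]

lemma even_sum_zero {Q : Type} [AddCommGroup Q] {c : ZMod m → Q} (hc : OddDist c) (r : ZMod m → ℤ)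
    (hr : ∀ a, r (-a) = r a) : ∑ a, r a • c a = 0 := by
  refine Finset.sum_involution (fun a _ => -a) ?_ ?_ (fun a _ => mem_univ _)
    (fun a _ => neg_neg a)
  · intro a _
    rw [hr, hc.neg, smul_neg, add_neg_cancel]
  · intro a _ h h'
    apply h
    have h1 : a + a = 0 := by
      nth_rewrite 1 [← h']
      exact neg_add_cancel a
    rw [hc.half a h1, smul_zero]

lemma Eqv.of_od {x y : ZMod m → ℤ} (h : od x = od y) : Eqv x y := by
  intro Q _ c hc
  have h1 := even_sum_zero hc (x - y) (fun a => by
    have := congrFun h a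
    simp only [od] at this
    simp only [Pi.sub_apply]
    linarith)
  simp only [Pi.sub_apply, sub_smul, sum_sub_distrib] at h1
  exact sub_eq_zero.mp h1

lemma Eqv.rel {x y : ZMod m → ℤ} (h : Eqv x y) (hx : Rel x) : Rel y := by
  intro t
  have h1 := h ℤ (fun a => saw ((t : ZMod m) * a)) ⟨fun a => by rw [mul_neg, saw_neg],
    fun a ha => saw_half (by rw [← mul_add, ha, mul_zero]),
    fun p d _ hpd a => saw_dist_unit hpd t a⟩
  simp only [smul_eq_mul] at h1
  rw [← h1]
  exact hx t

/-- the weighted norm -/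
def Phi (ω : ℕ → ℕ) (X : ZMod m → ℤ) : ℕ := ∑ a, ω (lv a) * (X a).natAbs

lemma Phi_add_le (ω : ℕ → ℕ) (X Y : ZMod m → ℤ) : Phi ω (X + Y) ≤ Phi ω X + Phi ω Y := by
  unfold Phi
  rw [← sum_add_distrib]
  apply sum_le_sum
  intro a _
  rw [← mul_add]
  exact Nat.mul_le_mul_left _ (Int.natAbs_add_le _ _)

lemma Phi_sub_le (ω : ℕ → ℕ) (X Y : ZMod m → ℤ) : Phi ω (X - Y) ≤ Phi ω X + Phi ω Y := by
  unfold Phi
  rw [← sum_add_distrib]
  apply sum_le_sum
  intro a _
  rw [← mul_add]
  exact Nat.mul_le_mul_left _ (Int.natAbs_sub_le _ _)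

lemma Phi_mono {ω ω' : ℕ → ℕ} (h : ∀ n, ω n ≤ ω' n) (X : ZMod m → ℤ) : Phi ω X ≤ Phi ω' X :=
  sum_le_sum fun _ _ => Nat.mul_le_mul_right _ (h _)

lemma Phi_congr (ω : ℕ → ℕ) (X Y : ZMod m → ℤ) (h : ∀ a, ω (lv a) ≠ 0 → X a = Y a) :
    Phi ω X = Phi ω Y := by
  unfold Phi
  refine sum_congr rfl fun a _ => ?_
  by_cases h0 : ω (lv a) = 0
  · rw [h0, zero_mul, zero_mul]
  · rw [h a h0]

variable {M d : ℕ} [NeZero d]

/-- the function on level `m` with values `g` on the part of level `d` -/
def up (M : ℕ) (g : (ZMod d)ˣ → ℤ) : ZMod m → ℤ :=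
  fun a => ∑ u : (ZMod d)ˣ, if (iota M (u : ZMod d) : ZMod m) = a then g u else 0

lemma sum_up {Q : Type*} [AddCommGroup Q] (c : ZMod m → Q) (g : (ZMod d)ˣ → ℤ) :
    ∑ a, (up M g : ZMod m → ℤ) a • c a = ∑ u : (ZMod d)ˣ, g u • c (iota M (u : ZMod d)) := by
  unfold up
  simp only [sum_smul]
  rw [sum_comm]
  refine sum_congr rfl fun u _ => ?_
  rw [Finset.sum_eq_single (iota M (u : ZMod d) : ZMod m)]
  · rw [if_pos rfl]
  · intro b _ hb
    rw [if_neg (Ne.symm hb), zero_smul]
  · intro h
    exact absurd (mem_univ _) h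

lemma up_add (g h : (ZMod d)ˣ → ℤ) : (up M (g + h) : ZMod m → ℤ) = up M g + up M h := by
  funext a
  simp only [up, Pi.add_apply]
  rw [← sum_add_distrib]
  refine sum_congr rfl fun u _ => ?_
  split_ifs <;> simp

lemma up_sub (g h : (ZMod d)ˣ → ℤ) : (up M (g - h) : ZMod m → ℤ) = up M g - up M h := by
  funext a
  simp only [up, Pi.sub_apply]
  rw [← sum_sub_distrib]
  refine sum_congr rfl fun u _ => ?_
  split_ifs <;> simp

lemma up_neg (hM : M * d = m) (g : (ZMod d)ˣ → ℤ) (a : ZMod m) :
    (up M g : ZMod m → ℤ) (-a) = (up M (fun u => g (-u)) : ZMod m → ℤ) a := by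
  unfold up
  rw [← Equiv.sum_comp (Equiv.neg (ZMod d)ˣ)]
  refine sum_congr rfl fun u _ => ?_
  simp only [Equiv.neg_apply, Units.val_neg]
  rw [iota_neg hM]
  simp only [neg_inj]

lemma od_up (hM : M * d = m) (g : (ZMod d)ˣ → ℤ) :
    od (up M g : ZMod m → ℤ) = up M (fun u => g u - g (-u)) := by
  funext a
  unfold od
  rw [up_neg hM]
  have := congrFun (up_sub (m := m) (M := M) g (fun u => g (-u))) a
  rw [Pi.sub_apply] at this
  exact this.symm

lemma up_iota (hM : M * d = m) (g : (ZMod d)ˣ → ℤ) (u : (ZMod d)ˣ) :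
    (up M g : ZMod m → ℤ) (iota M (u : ZMod d)) = g u := by
  unfold up
  rw [Finset.sum_eq_single u]
  · rw [if_pos rfl]
  · intro v _ hv
    rw [if_neg]
    intro h
    exact hv (Units.ext (iota_inj hM h))
  · intro h
    exact absurd (mem_univ _) h

lemma up_supp (hM : M * d = m) (g : (ZMod d)ˣ → ℤ) (a : ZMod m)
    (h : (up M g : ZMod m → ℤ) a ≠ 0) : lv a = d := by
  unfold up at h
  obtain ⟨u, _, hu⟩ := Finset.exists_ne_zero_of_sum_ne_zero h
  have h1 : (iota M (u : ZMod d) : ZMod m) = a := by
    by_contra hcon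
    rw [if_neg hcon] at hu
    exact hu rfl
  rw [← h1]
  exact lv_iota hM u

lemma Phi_up (hM : M * d = m) (ω : ℕ → ℕ) (g : (ZMod d)ˣ → ℤ) :
    Phi ω (up M g : ZMod m → ℤ) = ω d * nm g := by
  unfold Phi nm
  have hinj : Function.Injective (fun u : (ZMod d)ˣ => (iota M (u : ZMod d) : ZMod m)) := by
    intro u v h
    exact Units.ext (iota_inj hM h)
  rw [mul_sum]
  have h1 : ∀ u : (ZMod d)ˣ, ω d * (g u).natAbs =
      (fun a : ZMod m => ω (lv a) * ((up M g : ZMod m → ℤ) a).natAbs) (iota M (u : ZMod d)) := by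
    intro u
    simp only
    rw [lv_iota hM, up_iota hM]
  rw [sum_congr rfl fun u _ => h1 u, ← Finset.sum_image (s := univ)
    (g := fun u : (ZMod d)ˣ => (iota M (u : ZMod d) : ZMod m))
    (f := fun a : ZMod m => ω (lv a) * ((up M g : ZMod m → ℤ) a).natAbs)
    (fun b _ b' _ h => hinj h)]
  symm
  apply sum_subset (subset_univ _)
  intro a _ ha
  by_cases h0 : (up M g : ZMod m → ℤ) a = 0
  · rw [h0]; simp
  · exfalso
    apply ha
    obtain ⟨u, hu⟩ := exists_iota hM (up_supp hM g a h0)
    exact mem_image.mpr ⟨u, mem_univ u, hu⟩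

/-- splitting off the part of level `d` -/
lemma split_top (hM : M * d = m) (ω : ℕ → ℕ) (X : ZMod m → ℤ) :
    Phi ω (X - up M (fun u : (ZMod d)ˣ => X (iota M (u : ZMod d)))) +
      ω d * nm (fun u : (ZMod d)ˣ => X (iota M (u : ZMod d))) = Phi ω X := by
  rw [← Phi_up hM]
  unfold Phi
  rw [← sum_add_distrib]
  refine sum_congr rfl fun a _ => ?_
  rw [← mul_add, Pi.sub_apply]
  congr 1
  by_cases h : lv a = d
  · obtain ⟨u, rfl⟩ := exists_iota hM h
    rw [up_iota hM]; simp
  · have h1 : (up M (fun u : (ZMod d)ˣ => X (iota M (u : ZMod d))) : ZMod m → ℤ) a = 0 := by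
      by_contra hcon
      exact h (up_supp hM _ a hcon)
    rw [h1]; simp

lemma sub_top_supp (hM : M * d = m) (X : ZMod m → ℤ) (a : ZMod m)
    (h : (X - up M (fun u : (ZMod d)ˣ => X (iota M (u : ZMod d))) : ZMod m → ℤ) a ≠ 0) :
    X a ≠ 0 ∧ lv a ≠ d := by
  rw [Pi.sub_apply] at h
  have h1 : lv a ≠ d := by
    intro h2
    obtain ⟨u, rfl⟩ := exists_iota hM h2
    rw [up_iota hM] at h
    exact h (sub_self _)
  have h3 : (up M (fun u : (ZMod d)ˣ => X (iota M (u : ZMod d))) : ZMod m → ℤ) a = 0 := by
    by_contra hcon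
    exact h1 (up_supp hM _ a hcon)
  rw [h3, sub_zero] at h
  exact ⟨h, h1⟩

end defs

/-- The invariant functions descend. -/
lemma inv_red {m M d p e : ℕ} [NeZero m] [NeZero d] [NeZero e] (hp : p.Prime) (hd : p * e = d)
    (hM : M * d = m) (β : (ZMod d)ˣ → ℤ) (hβ : ∀ k ∈ KK d p, ∀ x, β (k * x) = β x)
    (hodd : ∀ u, β (-u) = - β u) (ω : ℕ → ℕ) :
    ∃ y : ZMod m → ℤ, Eqv (up M (fun u => pp (β u))) y ∧ (∀ a, od y a ≠ 0 → lv a = e) ∧
      (el (KK d p)).card * Phi ω (od y) ≤ ω e * (if p ∣ e then 1 else 2) * nm β := by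
  classical
  obtain ⟨β', hβ'⟩ := exists_descend hp hd β hβ
  set ρ := ZMod.unitsMap (Dvd.intro_left p hd : e ∣ d) with hρ
  have hMp : M * p * e = m := by rw [mul_assoc, hd, hM]
  have hodd' : ∀ v, β' (-v) = - β' v := by
    intro v
    obtain ⟨u, hu⟩ := ZMod.unitsMap_surjective (Dvd.intro_left p hd : e ∣ d) v
    rw [← hρ] at hu
    have h1 : ρ (-u) = - v := by
      rw [← hu]
      have : (-u : (ZMod d)ˣ) = (-1) * u := by rw [neg_one_mul]
      rw [this, map_mul]
      have h2 : ρ (-1) = -1 := by
        apply Units.ext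
        rw [hρ, ZMod.unitsMap_val]
        simp only [Units.val_neg, Units.val_one]
        rw [ZMod.cast_neg (Dvd.intro_left p hd : e ∣ d), ZMod.cast_one (Dvd.intro_left p hd : e ∣ d)]
      rw [h2, neg_one_mul]
    rw [← h1, ← hβ', hodd, hβ', hu]
  have hnm : nm β = (el (KK d p)).card * nm β' := by
    unfold nm
    rw [← sum_fib hp hd (fun v => (β' v).natAbs)]
    refine sum_congr rfl fun u _ => ?_
    rw [hβ' u]
  have hfib : ∀ (Q : Type) [AddCommGroup Q] (c : ZMod m → Q),
      ∑ a, (up M (fun u => pp (β u)) : ZMod m → ℤ) a • c a =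
      ∑ v : (ZMod e)ˣ, pp (β' v) • ∑ u ∈ univ.filter (fun u : (ZMod d)ˣ => ρ u = v),
        c (iota M (u : ZMod d)) := by
    intro Q _ c
    rw [sum_up, ← Finset.sum_fiberwise univ (fun t : (ZMod d)ˣ => ρ t)]
    refine sum_congr rfl fun v _ => ?_
    rw [smul_sum]
    refine sum_congr rfl fun u hu => ?_
    rw [hβ' u, (mem_filter.mp hu).2]
  by_cases hpe : p ∣ e
  · refine ⟨up (M * p) (fun v => pp (β' v)), ?_, ?_, ?_⟩
    · intro Q _ c hc
      rw [hfib Q c, sum_up]
      refine sum_congr rfl fun v _ => ?_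
      rw [fiber_dvd hc hp hd hM hpe]
    · intro a ha
      rw [od_up hMp] at ha
      exact up_supp hMp _ a ha
    · rw [od_up hMp, Phi_up hMp, if_pos hpe, hnm, mul_one]
      have : nm (fun v => pp (β' v) - pp (β' (-v))) = nm β' := by
        congr 1
        funext v
        rw [hodd', pp_sub_neg]
      rw [this]
      exact le_of_eq (by ring)
  · have hc' : Nat.Coprime p e := (Nat.Prime.coprime_iff_not_dvd hp).mpr hpe
    set P := ZMod.unitOfCoprime p hc' with hP
    refine ⟨up (M * p) (fun v => pp (β' v)) - up (M * p) (fun v => pp (β' (P * v))), ?_, ?_, ?_⟩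
    · intro Q _ c hc
      rw [hfib Q c]
      simp only [Pi.sub_apply, sub_smul, sum_sub_distrib]
      rw [sum_up, sum_up]
      have h1 : ∑ v : (ZMod e)ˣ, pp (β' (P * v)) • c (iota (M * p) (v : ZMod e)) =
          ∑ v : (ZMod e)ˣ, pp (β' v) • c (iota (M * p) ((P⁻¹ * v : (ZMod e)ˣ) : ZMod e)) := by
        rw [← Equiv.sum_comp (Equiv.mulLeft P) (fun v => pp (β' v) •
          c (iota (M * p) ((P⁻¹ * v : (ZMod e)ˣ) : ZMod e)))]
        refine sum_congr rfl fun v _ => ?_
        simp only [Equiv.coe_mulLeft, inv_mul_cancel_left]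
      rw [h1, ← sum_sub_distrib]
      refine sum_congr rfl fun v _ => ?_
      rw [fiber_not_dvd hc hp hd hM hc', smul_sub]
    · intro a ha
      rw [← up_sub, od_up hMp] at ha
      exact up_supp hMp _ a ha
    · have h1 : od (up (M * p) (fun v => pp (β' v)) - up (M * p) (fun v => pp (β' (P * v))) :
          ZMod m → ℤ) = up (M * p) (fun v => β' v) - up (M * p) (fun v => β' (P * v)) := by
        rw [← up_sub, od_up hMp, ← up_sub]
        congr 1
        funext v
        simp only [Pi.sub_apply]
        have h2 := pp_sub_neg (β' v)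
        have h3 := pp_sub_neg (β' (P * v))
        rw [mul_neg, hodd', hodd']
        linarith
      rw [h1, if_neg hpe]
      have h2 : nm (fun v => β' (P * v)) = nm β' := by
        unfold nm
        exact Equiv.sum_comp (Equiv.mulLeft P) (fun v => (β' v).natAbs)
      have h3 := Phi_sub_le ω (up (M * p) (fun v => β' v) : ZMod m → ℤ)
        (up (M * p) (fun v => β' (P * v)))
      rw [Phi_up hMp, Phi_up hMp, h2] at h3
      calc (el (KK d p)).card * _ ≤ (el (KK d p)).card * (ω e * nm β' + ω e * nm β') :=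
            Nat.mul_le_mul_left _ h3
        _ = _ := by rw [hnm]; ring

/-- the weight: residues of order `2` modulo `4` count twice -/
def wt (n : ℕ) : ℕ := if n % 4 = 2 then 2 else 1

/-- the weight that counts the residues of order divisible by `4` -/
def w4 (n : ℕ) : ℕ := if 4 ∣ n then 1 else 0

lemma w4_le_wt (n : ℕ) : w4 n ≤ wt n := by
  unfold w4 wt; split_ifs <;> omega

lemma one_le_wt (n : ℕ) : 1 ≤ wt n := by
  unfold wt; split_ifs <;> omega

/-- **Reduction of the top level.** -/
theorem top_red {m M d : ℕ} [NeZero m] [NeZero d] (hM : M * d = m) (f : (ZMod d)ˣ → ℤ)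
    (hodd : ∀ u, f (-u) = - f u)
    (hbox : ∀ x, BoxAt (d.primeFactors.toList.map (KK d)) f x)
    (hbd : d % 4 ≠ 2 → ∀ p ∈ d.primeFactors, ∀ q ∈ d.primeFactors, p ≠ q →
      2 * nm f < (el (KK d p)).card * (el (KK d q)).card) :
    ∃ y : ZMod m → ℤ, Eqv (up M (fun u => pp (f u))) y ∧
      (∀ a, od y a ≠ 0 → lv a ∣ d ∧ lv a ≠ d) ∧ Phi wt (od y) ≤ wt d * nm f := by
  by_cases hd4 : d % 4 = 2
  · -- twice an odd number
    have hd2 : 2 * (d / 2) = d := by omega
    have he0 : NeZero (d / 2) := ⟨by omega⟩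
    have hne : ¬ 2 ∣ d / 2 := by omega
    have hK : ∀ k ∈ KK d 2, ∀ x, f (k * x) = f x := by
      intro k hk x
      have h1 := card_KK_of_not_dvd Nat.prime_two hd2 hne
      have h2 : (el (KK d 2)).card = 1 := h1
      rw [Finset.card_eq_one] at h2
      obtain ⟨a, ha⟩ := h2
      have h3 : k ∈ el (KK d 2) := mem_el.mpr hk
      have h4 : (1 : (ZMod d)ˣ) ∈ el (KK d 2) := mem_el.mpr (one_mem _)
      rw [ha, mem_singleton] at h3 h4
      rw [h3, ← h4, one_mul]
    obtain ⟨y, hy1, hy2, hy3⟩ := inv_red Nat.prime_two hd2 hM f hK hodd wt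
    refine ⟨y, hy1, ?_, ?_⟩
    · intro a ha
      rw [hy2 a ha]
      exact ⟨⟨2, by omega⟩, by omega⟩
    · rw [card_KK_of_not_dvd Nat.prime_two hd2 hne, if_neg hne] at hy3
      have e1 : wt (d / 2) = 1 := by unfold wt; rw [if_neg (by omega)]
      have e2 : wt d = 2 := by unfold wt; rw [if_pos hd4]
      rw [e1] at hy3
      rw [e2]
      simpa using hy3
  · have e2 : wt d = 1 := by unfold wt; rw [if_neg hd4]
    rw [e2, one_mul]
    have hprime : ∀ p ∈ d.primeFactors.toList, p.Prime ∧ p ∣ d := by
      intro p hp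
      rw [Finset.mem_toList] at hp
      exact ⟨Nat.prime_of_mem_primeFactors hp, Nat.dvd_of_mem_primeFactors hp⟩
    have hNe : ∀ p ∈ d.primeFactors.toList, NeZero (d / p) := by
      intro p hp
      have h1 := hprime p hp
      exact ⟨(Nat.div_pos (Nat.le_of_dvd (NeZero.pos d) h1.2) h1.1.pos).ne'⟩
    let w : ℕ → ℕ := fun p => wt (d / p) * (if p ∣ d / p then 1 else 2)
    let R : ((ZMod d)ˣ → ℤ) → ℕ → Prop := fun f c => (∀ u, f (-u) = - f u) ∧
      ∃ y : ZMod m → ℤ, Eqv (up M (fun u => pp (f u))) y ∧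
        (∀ a, od y a ≠ 0 → lv a ∣ d ∧ lv a ≠ d) ∧ Phi wt (od y) ≤ c
    have hR0 : R 0 0 := by
      refine ⟨fun u => by simp, 0, ?_, ?_, ?_⟩
      · have : (up M (fun u : (ZMod d)ˣ => pp ((0 : (ZMod d)ˣ → ℤ) u)) : ZMod m → ℤ) = 0 := by
          funext a
          simp [up, pp]
        rw [this]
        exact Eqv.refl _
      · intro a ha
        simp [od] at ha
      · simp [Phi, od]
    have hadd : ∀ f f' c c', R f c → R f' c' → R (f + f') (c + c') := by
      rintro f f' c c' ⟨ho, y, h1, h2, h3⟩ ⟨ho', y', h1', h2', h3'⟩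
      refine ⟨fun u => by simp only [Pi.add_apply]; rw [ho, ho']; ring, y + y', ?_, ?_, ?_⟩
      · refine Eqv.trans ?_ (h1.add h1')
        apply Eqv.of_od
        rw [← up_add, od_up hM, od_up hM]
        congr 1
        funext u
        simp only [Pi.add_apply]
        rw [ho, ho']
        have e3 := pp_sub_neg (f u)
        have e4 := pp_sub_neg (f' u)
        have e5 := pp_sub_neg (f u + f' u)
        have e6 : -f u + -f' u = -(f u + f' u) := by ring
        rw [e6]
        linarith
      · intro a ha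
        by_cases h4 : od y a = 0
        · apply h2'
          intro h5
          apply ha
          simp only [od, Pi.add_apply] at h4 h5 ⊢
          linarith
        · exact h2 a h4
      · have h4 : od (y + y') = od y + od y' := by
          funext a
          simp only [od, Pi.add_apply]
          ring
        rw [h4]
        exact (Phi_add_le _ _ _).trans (Nat.add_le_add h3 h3')
    have hgr := greedy (KK d) w (-1) R hR0 hadd d.primeFactors.toList
      (dir_KK _ (Finset.nodup_toList _) (fun p hp => (hprime p hp).1)) ?_ ?_ f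
      (fun x => by rw [neg_one_mul]; exact hodd x) hbox ?_
    · obtain ⟨_, y, h1, h2, h3⟩ := hgr
      exact ⟨y, h1, h2, h3⟩
    · -- weights
      intro p hp
      obtain ⟨hp1, hp2⟩ := hprime p hp
      have := hNe p hp
      have hde : p * (d / p) = d := Nat.mul_div_cancel' hp2
      rcases hp1.eq_two_or_odd with h2 | hpo
      · subst h2
        right
        have h3 : 2 ∣ d / 2 := by omega
        refine ⟨?_, ?_⟩
        · simp only [w, if_pos h3, mul_one]
          unfold wt; split_ifs <;> omega
        · rw [card_KK_of_dvd hp1 hde h3]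
          exact even_two
      · have hwt : wt (d / p) = 1 := by
          unfold wt
          rw [if_neg]
          intro h3
          apply hd4
          have h4 : d % 4 = ((p % 4) * ((d / p) % 4)) % 4 := by
            rw [← Nat.mul_mod, hde]
          rw [h3] at h4
          have h5 : p % 4 = 1 ∨ p % 4 = 3 := by omega
          rcases h5 with h5 | h5 <;> rw [h5] at h4 <;> omega
        by_cases h3 : p ∣ d / p
        · left
          simp only [w, if_pos h3, hwt]
          omega
        · right
          refine ⟨?_, ?_⟩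
          · simp only [w, if_neg h3, hwt]
            omega
          · rw [card_KK_of_not_dvd hp1 hde h3]
            exact ⟨(p - 1) / 2, by omega⟩
    · -- invariant parts
      intro p hp β hβ hβo c hc
      obtain ⟨hp1, hp2⟩ := hprime p hp
      have := hNe p hp
      have hde : p * (d / p) = d := Nat.mul_div_cancel' hp2
      have hβo' : ∀ u, β (-u) = - β u := fun u => by
        have := hβo u
        rwa [neg_one_mul] at this
      obtain ⟨y, hy1, hy2, hy3⟩ := inv_red hp1 hde hM β hβ hβo' wt
      refine ⟨hβo', y, hy1, ?_, ?_⟩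
      · intro a ha
        rw [hy2 a ha]
        refine ⟨Nat.div_dvd_of_dvd hp2, ?_⟩
        have h1 := Nat.div_lt_self (NeZero.pos d) hp1.one_lt
        omega
      · exact Nat.le_of_mul_le_mul_left (hy3.trans hc) (el_pos _)
    · -- pairwise bound
      refine List.Nodup.pairwise_of_forall_ne (Finset.nodup_toList _) ?_
      intro p hp q hq hpq
      rw [Finset.mem_toList] at hp hq
      exact hbd hd4 p hp q hq hpq

/-- the conditions on the weighted norms -/
def Small (m : ℕ) (A B : ℕ) : Prop :=
  (∀ p q : ℕ, p.Prime → q.Prime → p ≠ 2 → q ≠ 2 → p ≠ q → p ∣ m → q ∣ m →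
    2 * A < (p - 1) * (q - 1)) ∧
  (4 ∣ m → ∀ p : ℕ, p.Prime → p ≠ 2 → p ∣ m → B < p - 1)

lemma Small.mono {m A B A' B' : ℕ} (h : Small m A B) (hA : A' ≤ A) (hB : B' ≤ B) :
    Small m A' B' :=
  ⟨fun p q hp hq hp2 hq2 hpq hpm hqm =>
    lt_of_le_of_lt (Nat.mul_le_mul_left 2 hA) (h.1 p q hp hq hp2 hq2 hpq hpm hqm),
    fun h4 p hp hp2 hpm => lt_of_le_of_lt hB (h.2 h4 p hp hp2 hpm)⟩

/-- **Small relations follow from the distribution relations.** -/
theorem descend {m : ℕ} [NeZero m] : ∀ N : ℕ, ∀ x : ZMod m → ℤ, Rel x →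
    (∀ a, od x a ≠ 0 → lv a ≤ N) → Small m (Phi wt (od x)) (Phi w4 (od x)) → Eqv x 0 := by
  intro N
  induction N with
  | zero =>
    intro x _ hs _
    apply Eqv.of_od
    funext a
    by_contra hcon
    have h1 : od (0 : ZMod m → ℤ) a = 0 := by simp [od]
    rw [h1] at hcon
    have := hs a hcon
    have := lv_pos a
    omega
  | succ N ih =>
    intro x hx hs hsm
    by_cases hdm : (N + 1) ∣ m
    · set d := N + 1 with hd
      obtain ⟨M, hM'⟩ := hdm
      have hM : M * d = m := by rw [mul_comm]; exact hM'.symm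
      have hNd : NeZero d := ⟨by omega⟩
      set X := od x with hX
      have hXo : ∀ a, X (-a) = - X a := fun a => od_neg x a
      have hXrel : Rel X := by
        intro t
        have h1 := hx t
        have h2 : ∑ a, x (-a) * saw ((t : ZMod m) * a) = 0 := by
          rw [← Equiv.sum_comp (Equiv.neg (ZMod m))]
          simp only [Equiv.neg_apply, neg_neg, mul_neg, saw_neg, sum_neg_distrib]
          rw [h1, neg_zero]
        simp only [hX, od, sub_mul, sum_sub_distrib]
        rw [h1, h2, sub_zero]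
      let f : (ZMod d)ˣ → ℤ := fun u => X (iota M (u : ZMod d))
      have hfo : ∀ u, f (-u) = - f u := by
        intro u
        simp only [f, Units.val_neg]
        rw [iota_neg hM, hXo]
      have hbox : ∀ y, BoxAt (d.primeFactors.toList.map (KK d)) f y := by
        apply boxAt_of_chars
        intro χ
        rcases char_zero hM X hXrel hXo hs χ with ⟨p, hp, h⟩ | h
        · exact Or.inl ⟨KK d p, List.mem_map.mpr ⟨p, Finset.mem_toList.mpr hp, rfl⟩, h⟩
        · exact Or.inr h
      have hsplit := split_top hM wt X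
      have hsplit4 := split_top hM w4 X
      have hfwt : nm f ≤ Phi wt X := by
        have h1 := one_le_wt d
        have h2 : 1 * nm f ≤ wt d * nm f := Nat.mul_le_mul_right _ h1
        change _ + wt d * nm f = _ at hsplit
        omega
      have hdm' : d ∣ m := Dvd.intro_left M hM
      have hbd : d % 4 ≠ 2 → ∀ p ∈ d.primeFactors, ∀ q ∈ d.primeFactors, p ≠ q →
          2 * nm f < (el (KK d p)).card * (el (KK d q)).card := by
        intro hd4
        -- a prime and 2
        have two : ∀ q ∈ d.primeFactors, q ≠ 2 → 2 ∣ d →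
            2 * nm f < (el (KK d 2)).card * (el (KK d q)).card := by
          intro q hq hq2 h2d
          have hqp := Nat.prime_of_mem_primeFactors hq
          have hqd := Nat.dvd_of_mem_primeFactors hq
          have h4d : 4 ∣ d := by omega
          have h4m : 4 ∣ m := dvd_trans h4d hdm'
          have h1 := hsm.2 h4m q hqp hq2 (dvd_trans hqd hdm')
          have h2 : nm f ≤ Phi w4 X := by
            have h3 : w4 d = 1 := by unfold w4; rw [if_pos h4d]
            change _ + w4 d * nm f = _ at hsplit4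
            rw [h3] at hsplit4
            omega
          have hde2 : 2 * (d / 2) = d := by omega
          have : NeZero (d / 2) := ⟨by omega⟩
          have hcard2 := card_KK_of_dvd Nat.prime_two hde2 (by omega)
          rw [hcard2]
          have hdeq : q * (d / q) = d := Nat.mul_div_cancel' hqd
          have : NeZero (d / q) :=
            ⟨(Nat.div_pos (Nat.le_of_dvd (NeZero.pos d) hqd) hqp.pos).ne'⟩
          have hcardq := card_KK_ge hqp hdeq
          omega
        intro p hp q hq hpq
        have hpp := Nat.prime_of_mem_primeFactors hp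
        have hqp := Nat.prime_of_mem_primeFactors hq
        have hpd := Nat.dvd_of_mem_primeFactors hp
        have hqd := Nat.dvd_of_mem_primeFactors hq
        by_cases hp2 : p = 2
        · rw [hp2] at hpd hpq ⊢
          exact two q hq (Ne.symm hpq) hpd
        · by_cases hq2 : q = 2
          · rw [hq2] at hqd hpq ⊢
            rw [mul_comm (el (KK d p)).card]
            exact two p hp hpq hqd
          · have h1 := hsm.1 p q hpp hqp hp2 hq2 hpq (dvd_trans hpd hdm') (dvd_trans hqd hdm')
            have hdep : p * (d / p) = d := Nat.mul_div_cancel' hpd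
            have : NeZero (d / p) :=
              ⟨(Nat.div_pos (Nat.le_of_dvd (NeZero.pos d) hpd) hpp.pos).ne'⟩
            have hdeq : q * (d / q) = d := Nat.mul_div_cancel' hqd
            have : NeZero (d / q) :=
              ⟨(Nat.div_pos (Nat.le_of_dvd (NeZero.pos d) hqd) hqp.pos).ne'⟩
            have h2 := Nat.mul_le_mul (card_KK_ge hpp hdep) (card_KK_ge hqp hdeq)
            omega
      obtain ⟨y, hy1, hy2, hy3⟩ := top_red hM f hfo hbox hbd
      -- the new relation
      set x' : ZMod m → ℤ := (x - up M (fun u : (ZMod d)ˣ => x (iota M (u : ZMod d)))) + y with hx'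
      have hEqv : Eqv x x' := by
        have h1 : Eqv (up M (fun u : (ZMod d)ˣ => x (iota M (u : ZMod d))) : ZMod m → ℤ) y := by
          refine Eqv.trans ?_ hy1
          apply Eqv.of_od
          rw [od_up hM, od_up hM]
          congr 1
          funext u
          rw [hfo, pp_sub_neg]
          simp only [f, hX, od, Units.val_neg]
          rw [iota_neg hM]
        have h2 := (Eqv.refl (x - up M (fun u : (ZMod d)ˣ => x (iota M (u : ZMod d))))).add h1
        rw [sub_add_cancel] at h2
        exact h2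
      have hodx' : od x' = (X - up M f) + od y := by
        have h1 : od x' = od x - od (up M (fun u : (ZMod d)ˣ => x (iota M (u : ZMod d)))) + od y := by
          funext a
          simp only [hx', od, Pi.add_apply, Pi.sub_apply]
          ring
        rw [h1, ← hX, od_up hM]
        congr 3
        funext u
        simp only [f, hX, od, Units.val_neg]
        rw [iota_neg hM]
      have hPhi : Phi wt (od x') ≤ Phi wt X := by
        rw [hodx']
        have h1 := Phi_add_le wt (X - up M f) (od y)
        change Phi wt (X - up M f) + wt d * nm f = _ at hsplit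
        omega
      have hPhi4 : Phi w4 (od x') ≤ Phi w4 X := by
        rw [hodx']
        have h1 := Phi_add_le w4 (X - up M f) (od y)
        change Phi w4 (X - up M f) + w4 d * nm f = _ at hsplit4
        by_cases h4d : 4 ∣ d
        · have h2 : w4 d = 1 := by unfold w4; rw [if_pos h4d]
          have h3 : wt d = 1 := by unfold wt; rw [if_neg (by omega)]
          have h4 := Phi_mono w4_le_wt (od y)
          rw [h3] at hy3
          rw [h2] at hsplit4
          omega
        · have h2 : Phi w4 (od y) = 0 := by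
            unfold Phi
            apply sum_eq_zero
            intro a _
            by_cases h3 : od y a = 0
            · rw [h3]; simp
            · have h4 := (hy2 a h3).1
              have h5 : w4 (lv a) = 0 := by
                unfold w4
                rw [if_neg (fun h => h4d (dvd_trans h h4))]
              rw [h5, zero_mul]
          omega
      have h0 := ih x' (hEqv.rel hx) ?_ (hsm.mono hPhi hPhi4)
      · exact hEqv.trans h0
      · intro a ha
        rw [hodx', Pi.add_apply] at ha
        by_cases h1 : (X - up M f : ZMod m → ℤ) a = 0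
        · rw [h1, zero_add] at ha
          obtain ⟨h2, h3⟩ := hy2 a ha
          have := Nat.le_of_dvd (NeZero.pos d) h2
          omega
        · obtain ⟨h2, h3⟩ := sub_top_supp hM X a h1
          have := hs a h2
          omega
    · apply ih x hx _ hsm
      intro a ha
      have h1 := hs a ha
      have h2 : lv a ≠ N + 1 := by
        intro h3
        apply hdm
        rw [← h3]
        exact lv_dvd a
      omega

end Pool.Agent.Q63.FQ
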